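import Pool.Agent.Lib.H59Q.CdBasic

/-!
# MP_54f706, Q2: the certificate gives exponential growth on a grid set
-/

namespace H60CD

open Set MeasureTheory Real Topology Pool.Agent.Lib.H59Q

lemma floor_refine {ρ : ℝ} {M : ℕ} (hM : 0 < M) (b : ℝ) :
    ⌊b / (ρ / M)⌋ / (M : ℤ) = ⌊b / ρ⌋ := by
  have hMr : (0 : ℝ) < M := by exact_mod_cast hM
  have hMz : (0 : ℤ) < (M : ℤ) := by exact_mod_cast hM
  have e : b / (ρ / M) = b / ρ * M := by
    rw [div_div_eq_mul_div]; ring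
  rw [e]
  set x := b / ρ with hx
  have h1 := Int.floor_le x
  have h2 := Int.lt_floor_add_one x
  have h3 : ⌊x⌋ * (M : ℤ) ≤ ⌊x * M⌋ := by
    rw [Int.le_floor]; push_cast
    exact mul_le_mul_of_nonneg_right h1 hMr.le
  have h4 : ⌊x * M⌋ < (⌊x⌋ + 1) * (M : ℤ) := by
    rw [Int.floor_lt]; push_cast
    exact mul_lt_mul_of_pos_right h2 hMr
  apply le_antisymm
  · have : ⌊x * M⌋ / (M : ℤ) < ⌊x⌋ + 1 := Int.ediv_lt_of_lt_mul hMz h4
    omega
  · exact Int.le_ediv_of_mul_le hMz h3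

/-- The steps of the certificate for the linear model. -/
theorem lin_steps {K : ℕ} {u₁ u₂ ρ σ lam : ℝ} {v : ℤ → ℕ}
    (h : RobustCert K u₁ u₂ ρ σ lam v) {u : ℝ} (hu : u ∈ Icc u₁ u₂) (m : ℕ) (b : ℝ) :
    lam ^ m * (v ⌊b / ρ⌋ : ℝ) ≤ ∑ p ∈ C (K * m) ×ˢ C (K * m),
      (v ⌊((3 : ℝ) ^ (K * m) * b - p.2 - u * p.1) / ρ⌋ : ℝ) := by
  have hlam := h.one_lt
  induction m with
  | zero => simp [C, Cd]
  | succ m ih =>
    have e1 : ∑ p ∈ C (K * (m + 1)) ×ˢ C (K * (m + 1)),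
        (v ⌊((3 : ℝ) ^ (K * (m + 1)) * b - p.2 - u * p.1) / ρ⌋ : ℝ) =
        ∑ p ∈ C (K * m) ×ˢ C (K * m), ∑ r ∈ C K ×ˢ C K,
          (v ⌊((3 : ℝ) ^ K * ((3 : ℝ) ^ (K * m) * b - p.2 - u * p.1) + 0 - r.2 - u * r.1) / ρ⌋ :
            ℝ) := by
      rw [Finset.sum_product]
      rw [show C (K * (m + 1)) = Cd 3 {0, 2} (K * m + K) by rw [C, Nat.mul_succ],
        sum_Cd_add C_digits, Finset.sum_product]
      refine Finset.sum_congr rfl fun x _ => ?_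
      have e2 : ∀ y : ℕ, ∑ z ∈ Cd 3 {0, 2} (K * m + K),
          (v ⌊((3 : ℝ) ^ (K * (m + 1)) * b - z - u * ((3 ^ K * x + y : ℕ) : ℝ)) / ρ⌋ : ℝ) =
          ∑ x' ∈ C (K * m), ∑ y' ∈ C K,
            (v ⌊((3 : ℝ) ^ K * ((3 : ℝ) ^ (K * m) * b - x' - u * x) + 0 - y' - u * y) / ρ⌋ :
              ℝ) := by
        intro y
        rw [sum_Cd_add C_digits]
        refine Finset.sum_congr rfl fun x' _ => Finset.sum_congr rfl fun y' _ => ?_
        congr 3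
        push_cast
        rw [Nat.mul_succ, pow_add]
        ring
      rw [Finset.sum_congr rfl fun y _ => e2 y, Finset.sum_comm]
      refine Finset.sum_congr rfl fun x' _ => ?_
      rw [Finset.sum_product]
      rfl
    rw [e1, pow_succ]
    calc lam ^ m * lam * (v ⌊b / ρ⌋ : ℝ)
        = lam * (lam ^ m * (v ⌊b / ρ⌋ : ℝ)) := by ring
      _ ≤ lam * ∑ p ∈ C (K * m) ×ˢ C (K * m),
          (v ⌊((3 : ℝ) ^ (K * m) * b - p.2 - u * p.1) / ρ⌋ : ℝ) :=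
        mul_le_mul_of_nonneg_left ih (by linarith)
      _ = ∑ p ∈ C (K * m) ×ˢ C (K * m), lam *
          (v ⌊((3 : ℝ) ^ (K * m) * b - p.2 - u * p.1) / ρ⌋ : ℝ) :=
        Finset.mul_sum _ _ _
      _ ≤ _ := by
        refine Finset.sum_le_sum fun p _ => ?_
        exact h.step u hu _ 0 (by rw [abs_zero]; exact h.σ_pos.le)

/-- Splitting off the first step. -/
lemma sum_first {K m : ℕ} (u b : ℝ) (f : ℝ → ℝ) :
    ∑ p ∈ C (K * (m + 1)) ×ˢ C (K * (m + 1)),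
        f ((3 : ℝ) ^ (K * (m + 1)) * b - p.2 - u * p.1) =
      ∑ p ∈ C K ×ˢ C K, ∑ r ∈ C (K * m) ×ˢ C (K * m),
        f ((3 : ℝ) ^ (K * m) * ((3 : ℝ) ^ K * b - p.2 - u * p.1) - r.2 - u * r.1) := by
  have hc : C (K * (m + 1)) = Cd 3 {0, 2} (K + K * m) := by
    rw [C, Nat.mul_succ, Nat.add_comm]
  rw [Finset.sum_product, hc, sum_Cd_add C_digits, Finset.sum_product]
  refine Finset.sum_congr rfl fun x _ => ?_
  have e2 : ∀ y : ℕ, ∑ z ∈ Cd 3 {0, 2} (K + K * m),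
      f ((3 : ℝ) ^ (K * (m + 1)) * b - z - u * ((3 ^ (K * m) * x + y : ℕ) : ℝ)) =
      ∑ x' ∈ C K, ∑ y' ∈ C (K * m),
        f ((3 : ℝ) ^ (K * m) * ((3 : ℝ) ^ K * b - x' - u * x) - y' - u * y) := by
    intro y
    rw [sum_Cd_add C_digits]
    refine Finset.sum_congr rfl fun x' _ => Finset.sum_congr rfl fun y' _ => ?_
    congr 1
    push_cast
    rw [Nat.mul_succ, pow_add]
    ring
  rw [Finset.sum_congr rfl fun y _ => e2 y, Finset.sum_comm]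
  refine Finset.sum_congr rfl fun x' _ => ?_
  rw [Finset.sum_product]
  rfl

/-- **Growth on a grid set** from the certificate. -/
theorem growth_of_cert {K : ℕ} {u₁ u₂ ρ σ lam : ℝ} {v : ℤ → ℕ}
    (h : RobustCert K u₁ u₂ ρ σ lam v) :
    ∃ (M : ℕ) (S : Finset ℤ) (c : ℝ), 0 < M ∧ 0 < c ∧ (∀ k : ℤ, k ∈ S ↔ 1 ≤ v (k / M)) ∧
      ∀ u ∈ Icc u₁ u₂, ∀ n : ℕ, 1 ≤ n → ∀ b ∈ Xset (ρ / M) S,
        c * lam ^ n ≤ (cnt u (Gset (ρ / M) S) (K * n) b : ℝ) := by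
  classical
  have hρ := h.ρ_pos
  have hσ := h.σ_pos
  have hlam := h.one_lt
  have h3K : (0 : ℝ) < 3 ^ K := by positivity
  obtain ⟨V, hV⟩ : ∃ V : ℕ, ∀ k, v k ≤ V := by
    refine ⟨h.fin.toFinset.sup v, fun k => ?_⟩
    by_cases hk : v k = 0
    · rw [hk]; exact Nat.zero_le _
    · exact Finset.le_sup (f := v) (h.fin.mem_toFinset.mpr hk)
  obtain ⟨M, hM⟩ := exists_nat_gt (ρ * 3 ^ K / σ)
  have hMr : (0 : ℝ) < M := lt_trans (by positivity) hM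
  have hM0 : 0 < M := by exact_mod_cast hMr
  have hMz : (0 : ℤ) < (M : ℤ) := by exact_mod_cast hM0
  have hstepσ : 3 ^ K * (ρ / M) ≤ σ := by
    rw [div_lt_iff₀ hσ] at hM
    rw [← mul_div_assoc, div_le_iff₀ hMr]
    linarith
  set S : Finset ℤ := h.fin.toFinset.biUnion fun c => Finset.Ico (c * M) (c * M + M) with hS
  have hSmem : ∀ k : ℤ, k ∈ S ↔ 1 ≤ v (k / M) := by
    intro k
    rw [hS, Finset.mem_biUnion]
    constructor
    · rintro ⟨c, hc, hk⟩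
      rw [Finset.mem_Ico] at hk
      have e : k / M = c := by
        apply le_antisymm
        · have : k / (M : ℤ) < c + 1 := Int.ediv_lt_of_lt_mul hMz (by linarith [hk.2])
          omega
        · exact Int.le_ediv_of_mul_le hMz hk.1
      rw [e]
      have := h.fin.mem_toFinset.mp hc
      rw [Function.mem_support] at this
      omega
    · intro hk
      refine ⟨k / M, h.fin.mem_toFinset.mpr ?_, ?_⟩
      · rw [Function.mem_support]; omega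
      · rw [Finset.mem_Ico]
        have h1 := Int.mul_ediv_add_emod k M
        have h2 := Int.emod_nonneg k hMz.ne'
        have h3 := Int.emod_lt_of_pos k hMz
        constructor <;> nlinarith
  have hG : ∀ b : ℝ, b ∈ Gset (ρ / M) S ↔ 1 ≤ v ⌊b / ρ⌋ := by
    intro b
    show ⌊b / (ρ / M)⌋ ∈ S ↔ _
    rw [hSmem, floor_refine hM0]
  refine ⟨M, S, 1 / (V + 1), hM0, by positivity, hSmem, ?_⟩
  intro u hu n hn b hb
  obtain ⟨m, rfl⟩ : ∃ m, n = m + 1 := ⟨n - 1, by omega⟩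
  -- a point of `Gset` at distance at most `ρ / M`
  have hρM : 0 < ρ / M := by positivity
  obtain ⟨b', hb', s, hs, hbs⟩ : ∃ b' : ℝ, 1 ≤ v ⌊b' / ρ⌋ ∧ ∃ s : ℝ, |s| ≤ σ ∧
      3 ^ K * b = 3 ^ K * b' + s := by
    have hsh : ∀ e : ℤ, |e| ≤ 1 → ⌊b / (ρ / M)⌋ + e ∈ S → ∃ b' : ℝ, 1 ≤ v ⌊b' / ρ⌋ ∧
        ∃ s : ℝ, |s| ≤ σ ∧ 3 ^ K * b = 3 ^ K * b' + s := by
      intro e he hmem
      refine ⟨b + e * (ρ / M), ?_, - (3 ^ K * (e * (ρ / M))), ?_, by ring⟩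
      · rw [← hG]
        show ⌊(b + e * (ρ / M)) / (ρ / M)⌋ ∈ S
        rw [add_div, mul_div_assoc, div_self hρM.ne', mul_one, Int.floor_add_intCast]
        exact hmem
      · rw [abs_neg, abs_mul, abs_mul, abs_of_pos h3K, abs_of_pos hρM]
        have : |((e : ℤ) : ℝ)| ≤ 1 := by exact_mod_cast he
        calc 3 ^ K * (|((e : ℤ) : ℝ)| * (ρ / M)) ≤ 3 ^ K * (1 * (ρ / M)) := by
              refine mul_le_mul_of_nonneg_left ?_ h3K.le
              exact mul_le_mul_of_nonneg_right this hρM.le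
          _ = 3 ^ K * (ρ / M) := by ring
          _ ≤ σ := hstepσ
    rcases hb with hb | hb | hb
    · exact hsh 0 (by norm_num) (by rwa [add_zero])
    · exact hsh 1 (by norm_num) hb
    · exact hsh (-1) (by norm_num) (by rwa [← sub_eq_add_neg])
  -- weights
  have hW : lam ^ (m + 1) ≤ ∑ p ∈ C (K * (m + 1)) ×ˢ C (K * (m + 1)),
      (v ⌊((3 : ℝ) ^ (K * (m + 1)) * b - p.2 - u * p.1) / ρ⌋ : ℝ) := by
    rw [sum_first u b (fun x => (v ⌊x / ρ⌋ : ℝ))]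
    calc lam ^ (m + 1) = lam ^ m * (lam * 1) := by rw [pow_succ, mul_one]
      _ ≤ lam ^ m * (lam * (v ⌊b' / ρ⌋ : ℝ)) := by
          have h1 : (1 : ℝ) ≤ (v ⌊b' / ρ⌋ : ℝ) := by exact_mod_cast hb'
          have h0 : (0 : ℝ) ≤ lam := by linarith
          exact mul_le_mul_of_nonneg_left (mul_le_mul_of_nonneg_left h1 h0) (by positivity)
      _ ≤ lam ^ m * ∑ p ∈ C K ×ˢ C K,
            (v ⌊((3 : ℝ) ^ K * b' + s - p.2 - u * p.1) / ρ⌋ : ℝ) :=
          mul_le_mul_of_nonneg_left (h.step u hu b' s hs) (by positivity)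
      _ = ∑ p ∈ C K ×ˢ C K, lam ^ m *
            (v ⌊((3 : ℝ) ^ K * b - p.2 - u * p.1) / ρ⌋ : ℝ) := by
          rw [Finset.mul_sum, hbs]
      _ ≤ _ := Finset.sum_le_sum fun p _ => lin_steps h hu m _
  have hcount : ∑ p ∈ C (K * (m + 1)) ×ˢ C (K * (m + 1)),
      (v ⌊((3 : ℝ) ^ (K * (m + 1)) * b - p.2 - u * p.1) / ρ⌋ : ℝ) ≤
      (cnt u (Gset (ρ / M) S) (K * (m + 1)) b : ℝ) * (V + 1) := by
    unfold cnt
    rw [← nsmul_eq_mul, ← Finset.sum_const, Finset.sum_filter]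
    refine Finset.sum_le_sum fun p _ => ?_
    split_ifs with hp
    · have : (v ⌊((3 : ℝ) ^ (K * (m + 1)) * b - p.2 - u * p.1) / ρ⌋ : ℝ) ≤ V := by
        exact_mod_cast hV _
      linarith
    · rw [hG] at hp
      have : v ⌊((3 : ℝ) ^ (K * (m + 1)) * b - p.2 - u * p.1) / ρ⌋ = 0 := by omega
      rw [this]; simp
  have hV1 : (0 : ℝ) < (V : ℝ) + 1 := by positivity
  rw [one_div, inv_mul_le_iff₀ hV1]
  linarith [hW.trans hcount]

end H60CD
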