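import Pool.Agent.Lib.H60CD.Tree

/-!
# MP_54f706, Q2: ternary digits and the Cantor set
-/

namespace H60CD

open Set

/-- The finite set of numbers with `n` ternary digits in `{0, 2}`. -/
def CF : ℕ → Finset ℕ
  | 0 => {0}
  | n + 1 => (CF n).image (fun a => 3 * a) ∪ (CF n).image (fun a => 3 * a + 2)

lemma mem_CF {n a : ℕ} : a ∈ CF n ↔ CN n a := by
  induction n generalizing a with
  | zero =>
    constructor
    · intro h
      rw [CF, Finset.mem_singleton] at h
      rw [h]
      exact CN.zero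
    · intro h
      cases h
      simp [CF]
  | succ n ih =>
    constructor
    · intro h
      rw [CF, Finset.mem_union, Finset.mem_image, Finset.mem_image] at h
      rcases h with ⟨c, hc, rfl⟩ | ⟨c, hc, rfl⟩
      · exact (ih.mp hc).s0
      · exact (ih.mp hc).s2
    · intro h
      rw [CF, Finset.mem_union, Finset.mem_image, Finset.mem_image]
      cases h with
      | s0 h => exact Or.inl ⟨_, ih.mpr h, rfl⟩
      | s2 h => exact Or.inr ⟨_, ih.mpr h, rfl⟩

lemma card_CF (n : ℕ) : (CF n).card = 2 ^ n := by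
  induction n with
  | zero => simp [CF]
  | succ n ih =>
    rw [CF, Finset.card_union_of_disjoint, Finset.card_image_of_injective,
      Finset.card_image_of_injective, ih, pow_succ]
    · ring
    · intro a b h
      simp only at h
      omega
    · intro a b h
      simp only at h
      omega
    · rw [Finset.disjoint_left]
      intro c h1 h2
      rw [Finset.mem_image] at h1 h2
      obtain ⟨a, -, ha⟩ := h1
      obtain ⟨b, -, hb⟩ := h2
      omega

lemma cantor_cases {x : ℝ} (hx : x ∈ cantorSet) :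
    ∃ y ∈ cantorSet, x = y / 3 ∨ x = (2 + y) / 3 := by
  rw [cantorSet_eq_union_halves] at hx
  rcases hx with ⟨y, hy, rfl⟩ | ⟨y, hy, rfl⟩
  · exact ⟨y, hy, Or.inl rfl⟩
  · exact ⟨y, hy, Or.inr rfl⟩

/-- `x` is in the part of the Cantor set in the basic interval `[a / 3 ^ n, (a + 1) / 3 ^ n]`. -/
def Part (n a : ℕ) (x : ℝ) : Prop := ∃ u ∈ cantorSet, x = ((a : ℝ) + u) / 3 ^ n

lemma Part.mem {n a : ℕ} {x : ℝ} (h : Part n a x) (ha : CN n a) : x ∈ cantorSet := by
  obtain ⟨u, hu, rfl⟩ := h
  exact ha.add_mem hu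

lemma Part.bounds {n a : ℕ} {x : ℝ} (h : Part n a x) :
    (a : ℝ) / 3 ^ n ≤ x ∧ x ≤ ((a : ℝ) + 1) / 3 ^ n := by
  obtain ⟨u, hu, rfl⟩ := h
  have h0 := (cantorSet_subset_unitInterval hu).1
  have h1 := (cantorSet_subset_unitInterval hu).2
  have h3 : (0 : ℝ) < 3 ^ n := by positivity
  constructor
  · rw [div_le_div_iff_of_pos_right h3]; linarith
  · rw [div_le_div_iff_of_pos_right h3]; linarith

lemma Part.zero {x : ℝ} (hx : x ∈ cantorSet) : Part 0 0 x := ⟨x, hx, by simp⟩

/-- Descend `K` levels. -/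
lemma Part.desc {n a : ℕ} {x : ℝ} (h : Part n a x) (K : ℕ) :
    ∃ A, CN K A ∧ Part (n + K) (3 ^ K * a + A) x := by
  induction K with
  | zero => exact ⟨0, CN.zero, by simpa using h⟩
  | succ K ih =>
    obtain ⟨A, hA, u, hu, hx⟩ := ih
    obtain ⟨y, hy, e | e⟩ := cantor_cases hu
    · refine ⟨3 * A, hA.s0, y, hy, ?_⟩
      rw [hx, e, show n + (K + 1) = (n + K) + 1 by ring, pow_succ (3 : ℝ) (n + K)]
      push_cast
      rw [pow_succ]
      field_simp
    · refine ⟨3 * A + 2, hA.s2, y, hy, ?_⟩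
      rw [hx, e, show n + (K + 1) = (n + K) + 1 by ring, pow_succ (3 : ℝ) (n + K)]
      push_cast
      rw [pow_succ]
      field_simp
      ring

lemma exists_part {x : ℝ} (hx : x ∈ cantorSet) (n : ℕ) : ∃ a, CN n a ∧ Part n a x := by
  obtain ⟨A, hA, h⟩ := (Part.zero hx).desc n
  exact ⟨A, hA, by simpa using h⟩

end H60CD
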