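import Pool.Agent.Lib.H60CD.Low2
import Pool.Agent.Lib.H59Q.CdBasic

/-!
# MP_54f706, Q2: from the certificate to a limit set of positive dimension
-/

namespace H60CD

open Set MeasureTheory Real Topology Pool.Agent.Lib.H59Q

/-- Certificate with individual slopes: `K` levels per step, cells of length `ρ`, common noise `σ`,
slopes `t A ∈ [u₁, u₂]` which may depend on the horizontal digits `A`. -/
structure CurveCert (K : ℕ) (u₁ u₂ ρ σ lam : ℝ) (v : ℤ → ℕ) : Prop where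
  K_pos : 0 < K
  hu₁ : 1 / 3 ≤ u₁
  hu : u₁ < u₂
  hu₂ : u₂ ≤ 3
  ρ_pos : 0 < ρ
  σ_pos : 0 < σ
  one_lt : 1 < lam
  fin : (Function.support v).Finite
  step : ∀ t : ℕ → ℝ, (∀ A, t A ∈ Icc u₁ u₂) → ∀ b s : ℝ, |s| ≤ σ →
    lam * (v ⌊b / ρ⌋ : ℝ) ≤
      ∑ p ∈ C K ×ˢ C K, (v ⌊((3 : ℝ) ^ K * b + s - p.2 - t p.1 * p.1) / ρ⌋ : ℝ)

lemma CurveCert.robust {K : ℕ} {u₁ u₂ ρ σ lam : ℝ} {v : ℤ → ℕ}
    (h : CurveCert K u₁ u₂ ρ σ lam v) : RobustCert K u₁ u₂ ρ σ lam v :=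
  ⟨h.K_pos, h.hu₁, h.hu, h.hu₂, h.ρ_pos, h.σ_pos, h.one_lt, h.fin,
    fun u hu b s hs => h.step (fun _ => u) (fun _ => hu) b s hs⟩

/-- The windows: abscissas with slopes `3 ^ q x / y` in `[u₁, u₂]`. -/
structure Window (q : ℕ) (u₁ u₂ X0 X1 : ℝ) : Prop where
  h0 : 0 < X0
  h1 : X1 < 1
  lo : (u₁ / 3 ^ q) ^ 2 * (1 - X0 ^ 2) ≤ X0 ^ 2
  hi : X1 ^ 2 ≤ (u₂ / 3 ^ q) ^ 2 * (1 - X1 ^ 2)

lemma desc_window {X0 X1 : ℝ} {n K a A : ℕ} (ha : X0 ≤ (a : ℝ) / 3 ^ n)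
    (ha' : ((a : ℝ) + 1) / 3 ^ n ≤ X1) (hA : A < 3 ^ K) :
    X0 ≤ ((3 ^ K * a + A : ℕ) : ℝ) / 3 ^ (n + K) ∧
      (((3 ^ K * a + A : ℕ) : ℝ) + 1) / 3 ^ (n + K) ≤ X1 := by
  have h3n : (0 : ℝ) < 3 ^ n := by positivity
  have hA' : (A : ℝ) + 1 ≤ 3 ^ K := by exact_mod_cast hA
  have hA0 : (0 : ℝ) ≤ (A : ℝ) := by positivity
  constructor
  · refine ha.trans ?_
    rw [pow_add, div_le_div_iff₀ h3n (by positivity)]
    push_cast
    nlinarith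
  · refine le_trans ?_ ha'
    rw [pow_add, div_le_div_iff₀ (by positivity) h3n]
    push_cast
    nlinarith

/-- One step of the certificate along the circle. -/
theorem curve_step {K q : ℕ} {u₁ u₂ ρ σ lam X0 X1 : ℝ} {v : ℤ → ℕ}
    (h : CurveCert K u₁ u₂ ρ σ lam v) (hw : Window q u₁ u₂ X0 X1) {n a b : ℕ}
    (ha : X0 ≤ (a : ℝ) / 3 ^ n) (ha' : ((a : ℝ) + 1) / 3 ^ n ≤ X1) :
    lam * (v ⌊nu q n a b / ρ⌋ : ℝ) ≤ ∑ p ∈ C K ×ˢ C K,
      (v ⌊nu q (n + K) (3 ^ K * a + p.1) (3 ^ K * b + p.2) / ρ⌋ : ℝ) := by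
  classical
  have h3q : (0 : ℝ) < 3 ^ q := by positivity
  have hu₁ := h.hu₁
  have hu := h.hu
  set t : ℕ → ℝ := fun A => if A = 0 ∨ 3 ^ K ≤ A then u₁ else
    (3 ^ K * nu q n a b - nu q (n + K) (3 ^ K * a + A) (3 ^ K * b)) / A with ht
  have hnu : ∀ A B : ℕ, nu q (n + K) (3 ^ K * a + A) (3 ^ K * b + B) =
      nu q (n + K) (3 ^ K * a + A) (3 ^ K * b) - B := by
    intro A B
    unfold nu
    push_cast
    ring
  have htm : ∀ A, t A ∈ Icc u₁ u₂ := by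
    intro A
    rw [ht]
    simp only
    split_ifs with hA
    · exact ⟨le_rfl, hu.le⟩
    · push Not at hA
      obtain ⟨hA0, hA1⟩ := hA
      have hApos : (0 : ℝ) < (A : ℝ) := by
        have : 0 < A := Nat.pos_of_ne_zero hA0
        exact_mod_cast this
      obtain ⟨d0, d1⟩ := nu_desc (q := q) (b := b) (B := 0) hw.h0.le hw.h1
        (t1 := u₂ / 3 ^ q) (t0 := u₁ / 3 ^ q) (div_nonneg (by linarith) h3q.le) hw.lo hw.hi
        ha ha' hA1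
      rw [mul_div_cancel₀ _ h3q.ne'] at d0
      rw [mul_div_cancel₀ _ h3q.ne'] at d1
      rw [add_zero] at d0 d1
      push_cast at d0 d1
      constructor
      · rw [le_div_iff₀ hApos]; linarith
      · rw [div_le_iff₀ hApos]; linarith
  have hstep := h.step t htm (nu q n a b) 0 (by rw [abs_zero]; exact h.σ_pos.le)
  refine hstep.trans (le_of_eq (Finset.sum_congr rfl fun p hp => ?_))
  rw [Finset.mem_product, mem_C, mem_C] at hp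
  have hlt := hp.1.lt
  congr 3
  by_cases hp0 : p.1 = 0
  · rw [hp0]
    have e : nu q (n + K) (3 ^ K * a + 0) (3 ^ K * b + p.2) = 3 ^ K * nu q n a b - p.2 := by
      have e1 : (((3 ^ K * a + 0 : ℕ) : ℕ) : ℝ) / 3 ^ (n + K) = (a : ℝ) / 3 ^ n := by
        rw [pow_add]; push_cast; field_simp; ring
      unfold nu
      rw [e1]
      push_cast
      rw [show n + K + q = (n + q) + K by ring, pow_add (3 : ℝ) (n + q) K]
      ring
    rw [e]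
    push_cast
    ring
  · have hApos : (0 : ℝ) < (p.1 : ℝ) := by
      have : 0 < p.1 := Nat.pos_of_ne_zero hp0
      exact_mod_cast this
    have e : t p.1 = (3 ^ K * nu q n a b - nu q (n + K) (3 ^ K * a + p.1) (3 ^ K * b)) / p.1 := by
      rw [ht]
      simp only
      rw [if_neg]
      push Not
      exact ⟨hp0, hlt⟩
    rw [e, hnu p.1 p.2, div_mul_cancel₀ _ hApos.ne']
    ring

/-- Several steps of the certificate along the circle. -/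
theorem curve_steps {K q : ℕ} {u₁ u₂ ρ σ lam X0 X1 : ℝ} {v : ℤ → ℕ}
    (h : CurveCert K u₁ u₂ ρ σ lam v) (hw : Window q u₁ u₂ X0 X1) (m : ℕ) {n a b : ℕ}
    (ha : X0 ≤ (a : ℝ) / 3 ^ n) (ha' : ((a : ℝ) + 1) / 3 ^ n ≤ X1) :
    lam ^ m * (v ⌊nu q n a b / ρ⌋ : ℝ) ≤ ∑ p ∈ C (K * m) ×ˢ C (K * m),
      (v ⌊nu q (n + K * m) (3 ^ (K * m) * a + p.1) (3 ^ (K * m) * b + p.2) / ρ⌋ : ℝ) := by
  have hlam := h.one_lt
  induction m with
  | zero => simp [C, Cd]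
  | succ m ih =>
    have e1 : ∑ p ∈ C (K * (m + 1)) ×ˢ C (K * (m + 1)),
        (v ⌊nu q (n + K * (m + 1)) (3 ^ (K * (m + 1)) * a + p.1)
          (3 ^ (K * (m + 1)) * b + p.2) / ρ⌋ : ℝ) =
        ∑ p ∈ C (K * m) ×ˢ C (K * m), ∑ r ∈ C K ×ˢ C K,
          (v ⌊nu q (n + K * m + K) (3 ^ K * (3 ^ (K * m) * a + p.1) + r.1)
            (3 ^ K * (3 ^ (K * m) * b + p.2) + r.2) / ρ⌋ : ℝ) := by
      rw [Finset.sum_product]
      rw [show C (K * (m + 1)) = Cd 3 {0, 2} (K * m + K) by rw [C, Nat.mul_succ],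
        sum_Cd_add C_digits, Finset.sum_product]
      refine Finset.sum_congr rfl fun x _ => ?_
      have e2 : ∀ y : ℕ, ∑ z ∈ Cd 3 {0, 2} (K * m + K),
          (v ⌊nu q (n + K * (m + 1)) (3 ^ (K * (m + 1)) * a + (3 ^ K * x + y))
            (3 ^ (K * (m + 1)) * b + z) / ρ⌋ : ℝ) =
          ∑ x' ∈ C (K * m), ∑ y' ∈ C K,
            (v ⌊nu q (n + K * m + K) (3 ^ K * (3 ^ (K * m) * a + x) + y)
              (3 ^ K * (3 ^ (K * m) * b + x') + y') / ρ⌋ : ℝ) := by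
        intro y
        rw [sum_Cd_add C_digits]
        refine Finset.sum_congr rfl fun x' _ => Finset.sum_congr rfl fun y' _ => ?_
        congr 3
        have f1 : n + K * (m + 1) = n + K * m + K := by ring
        have f2 : 3 ^ (K * (m + 1)) * a + (3 ^ K * x + y) =
            3 ^ K * (3 ^ (K * m) * a + x) + y := by
          rw [Nat.mul_succ, pow_add]; ring
        have f3 : 3 ^ (K * (m + 1)) * b + (3 ^ K * x' + y') =
            3 ^ K * (3 ^ (K * m) * b + x') + y' := by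
          rw [Nat.mul_succ, pow_add]; ring
        rw [f1, f2, f3]
      rw [Finset.sum_congr rfl fun y _ => e2 y, Finset.sum_comm]
      refine Finset.sum_congr rfl fun x' _ => ?_
      rw [Finset.sum_product]
      rfl
    rw [e1, pow_succ]
    calc lam ^ m * lam * (v ⌊nu q n a b / ρ⌋ : ℝ)
        = lam * (lam ^ m * (v ⌊nu q n a b / ρ⌋ : ℝ)) := by ring
      _ ≤ lam * ∑ p ∈ C (K * m) ×ˢ C (K * m),
          (v ⌊nu q (n + K * m) (3 ^ (K * m) * a + p.1) (3 ^ (K * m) * b + p.2) / ρ⌋ : ℝ) :=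
        mul_le_mul_of_nonneg_left ih (by linarith)
      _ = ∑ p ∈ C (K * m) ×ˢ C (K * m), lam *
          (v ⌊nu q (n + K * m) (3 ^ (K * m) * a + p.1) (3 ^ (K * m) * b + p.2) / ρ⌋ : ℝ) :=
        Finset.mul_sum _ _ _
      _ ≤ _ := by
        refine Finset.sum_le_sum fun p hp => ?_
        rw [Finset.mem_product, mem_C, mem_C] at hp
        obtain ⟨w0, w1⟩ := desc_window (n := n) ha ha' hp.1.lt
        exact curve_step h hw w0 w1

/-- The good rectangles. -/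
def GoodV (q : ℕ) (ρ X0 X1 : ℝ) (v : ℤ → ℕ) (n a b : ℕ) : Prop :=
  X0 ≤ (a : ℝ) / 3 ^ n ∧ ((a : ℝ) + 1) / 3 ^ n ≤ X1 ∧ 1 ≤ v ⌊nu q n a b / ρ⌋

/-- **The certificate gives a limit set of positive dimension.** -/
theorem exists_lim {K q : ℕ} {u₁ u₂ ρ σ lam X0 X1 : ℝ} {v : ℤ → ℕ}
    (h : CurveCert K u₁ u₂ ρ σ lam v) (hw : Window q u₁ u₂ X0 X1) {n0 a0 b0 : ℕ}
    (ha0 : CN n0 a0) (hb0 : CN (n0 + q) b0) (hroot : GoodV q ρ X0 X1 v n0 a0 b0) :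
    ∃ k : ℕ, 0 < k ∧ 0 < dimH (Lim q k n0 (GoodV q ρ X0 X1 v)) := by
  classical
  have hlam := h.one_lt
  have hρ := h.ρ_pos
  obtain ⟨V, hV⟩ : ∃ V : ℕ, ∀ k, v k ≤ V := by
    refine ⟨h.fin.toFinset.sup v, fun k => ?_⟩
    by_cases hk : v k = 0
    · rw [hk]; exact Nat.zero_le _
    · exact Finset.le_sup (f := v) (h.fin.mem_toFinset.mpr hk)
  obtain ⟨B0, hB0⟩ : ∃ B0 : ℝ, ∀ k : ℤ, 1 ≤ v k → |(k : ℝ)| ≤ B0 := by
    obtain ⟨N, hN⟩ : ∃ N : ℕ, ∀ k : ℤ, 1 ≤ v k → |k| ≤ N := by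
      refine ⟨h.fin.toFinset.sup fun k => k.natAbs, fun k hk => ?_⟩
      have hk' : k ∈ h.fin.toFinset := h.fin.mem_toFinset.mpr (by
        rw [Function.mem_support]; omega)
      have := Finset.le_sup (f := fun k : ℤ => k.natAbs) hk'
      rw [Int.abs_eq_natAbs]
      exact_mod_cast this
    refine ⟨N, fun k hk => ?_⟩
    have := hN k hk
    exact_mod_cast this
  obtain ⟨m, hm⟩ := pow_unbounded_of_one_lt (2 * (V : ℝ) + 2) hlam
  have hm0 : 0 < m := by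
    rcases Nat.eq_zero_or_pos m with h0 | h0
    · exfalso
      rw [h0, pow_zero] at hm
      have : (0 : ℝ) ≤ V := by positivity
      linarith
    · exact h0
  have hk : 0 < K * m := Nat.mul_pos h.K_pos hm0
  refine ⟨K * m, hk, ?_⟩
  have hdim := tree_dimH_lim (q := q) (k := K * m) (M := 2) (n0 := n0) (a0 := a0) (b0 := b0)
    (C := (B0 + 1) * ρ) (GoodV q ρ X0 X1 v) hk le_rfl ha0 hb0 hroot ?_ ?_
  · refine lt_of_lt_of_le ?_ hdim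
    rw [ENNReal.ofReal_pos]
    have h2 : 0 < Real.log ((2 : ℕ) : ℝ) := Real.log_pos (by norm_num)
    have h3 : 0 < Real.log 3 := Real.log_pos (by norm_num)
    have h4 : (0 : ℝ) < ((K * m : ℕ) : ℝ) := by exact_mod_cast hk
    positivity
  · rintro n a b ⟨ha, ha', hab⟩
    have hs := curve_steps h hw m (b := b) ha ha'
    set f : ℕ × ℕ → ℕ := fun p =>
      v ⌊nu q (n + K * m) (3 ^ (K * m) * a + p.1) (3 ^ (K * m) * b + p.2) / ρ⌋ with hf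
    refine ⟨(C (K * m) ×ˢ C (K * m)).filter (fun p => 1 ≤ f p), ?_, ?_⟩
    · have h1 : ∑ p ∈ C (K * m) ×ˢ C (K * m), (f p : ℝ) ≤
          (((C (K * m) ×ˢ C (K * m)).filter (fun p => 1 ≤ f p)).card : ℝ) * V := by
        rw [← nsmul_eq_mul, ← Finset.sum_const, Finset.sum_filter]
        refine Finset.sum_le_sum fun p _ => ?_
        split_ifs with hp
        · exact_mod_cast hV _
        · have : f p = 0 := by omega
          rw [this]; simp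
      have h2 : lam ^ m ≤ lam ^ m * (v ⌊nu q n a b / ρ⌋ : ℝ) := by
        have : (1 : ℝ) ≤ (v ⌊nu q n a b / ρ⌋ : ℝ) := by exact_mod_cast hab
        exact le_mul_of_one_le_right (by positivity) this
      have h3 := (h2.trans hs).trans h1
      by_contra hcon
      push Not at hcon
      have h4 : (((C (K * m) ×ˢ C (K * m)).filter (fun p => 1 ≤ f p)).card : ℝ) ≤ 1 := by
        have : ((C (K * m) ×ˢ C (K * m)).filter (fun p => 1 ≤ f p)).card ≤ 1 := by omega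
        exact_mod_cast this
      have hV0 : (0 : ℝ) ≤ V := by positivity
      nlinarith
    · intro p hp
      rw [Finset.mem_filter, Finset.mem_product, mem_C, mem_C] at hp
      obtain ⟨⟨hp1, hp2⟩, hp3⟩ := hp
      obtain ⟨w0, w1⟩ := desc_window (n := n) ha ha' hp1.lt
      exact ⟨hp1, hp2, w0, w1, hp3⟩
  · rintro n a b ⟨-, -, hab⟩
    have h1 := hB0 _ hab
    have h2 := Int.floor_le (nu q n a b / ρ)
    have h3 := Int.lt_floor_add_one (nu q n a b / ρ)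
    rw [abs_le] at h1
    have h4 : |nu q n a b / ρ| ≤ B0 + 1 := by
      rw [abs_le]; constructor <;> linarith [h1.1, h1.2]
    rw [abs_div, abs_of_pos hρ, div_le_iff₀ hρ] at h4
    exact h4

/-- The slopes at the points of the limit set. -/
theorem lim_range {q k n0 : ℕ} {u₁ u₂ ρ X0 X1 : ℝ} {v : ℤ → ℕ} (hu₁ : 0 < u₁) (hu₂ : 0 < u₂)
    (hw : Window q u₁ u₂ X0 X1) :
    ∀ p ∈ Lim q k n0 (GoodV q ρ X0 X1 v), 0 < p.1 ∧ 0 < p.2 ∧
      3 ^ q * (p.1 / p.2) ∈ Icc u₁ u₂ := by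
  rintro p ⟨⟨hc, hx, hy⟩, hj⟩
  obtain ⟨a, b, ⟨g0, g1, -⟩, -, -, l1, r1, -, -⟩ := hj 0
  have h0 := hw.h0
  have h1 := hw.h1
  have hx0 : X0 ≤ p.1 := g0.trans l1
  have hx1 : p.1 ≤ X1 := r1.trans g1
  have hxp : 0 < p.1 := by linarith
  have hy0 : 0 ≤ p.2 := (cantorSet_subset_unitInterval hy).1
  have hyp : 0 < p.2 := by
    rcases hy0.eq_or_lt with h | h
    · exfalso
      rw [← h] at hc
      nlinarith
    · exact h
  have h3q : (0 : ℝ) < 3 ^ q := by positivity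
  have hlo := hw.lo
  have hhi := hw.hi
  have hy2 : p.2 ^ 2 = 1 - p.1 ^ 2 := by linarith
  refine ⟨hxp, hyp, ?_, ?_⟩
  · have k1 : (u₁ / 3 ^ q * p.2) ^ 2 ≤ p.1 ^ 2 := by
      rw [mul_pow, hy2]
      have s1 : (u₁ / 3 ^ q) ^ 2 * (1 - p.1 ^ 2) ≤ (u₁ / 3 ^ q) ^ 2 * (1 - X0 ^ 2) :=
        mul_le_mul_of_nonneg_left (by nlinarith) (by positivity)
      nlinarith
    have k2 : u₁ / 3 ^ q * p.2 ≤ p.1 := (abs_le_of_sq_le_sq' k1 hxp.le).2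
    have k3 : u₁ / 3 ^ q ≤ p.1 / p.2 := by rwa [le_div_iff₀ hyp]
    calc u₁ = 3 ^ q * (u₁ / 3 ^ q) := by field_simp
      _ ≤ 3 ^ q * (p.1 / p.2) := mul_le_mul_of_nonneg_left k3 h3q.le
  · have k1 : p.1 ^ 2 ≤ (u₂ / 3 ^ q * p.2) ^ 2 := by
      rw [mul_pow, hy2]
      have s1 : (u₂ / 3 ^ q) ^ 2 * (1 - X1 ^ 2) ≤ (u₂ / 3 ^ q) ^ 2 * (1 - p.1 ^ 2) :=
        mul_le_mul_of_nonneg_left (by nlinarith) (by positivity)
      nlinarith
    have k2 : p.1 ≤ u₂ / 3 ^ q * p.2 := (abs_le_of_sq_le_sq' k1 (by positivity)).2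
    have k3 : p.1 / p.2 ≤ u₂ / 3 ^ q := by rwa [div_le_iff₀ hyp]
    calc 3 ^ q * (p.1 / p.2) ≤ 3 ^ q * (u₂ / 3 ^ q) := mul_le_mul_of_nonneg_left k3 h3q.le
      _ = u₂ := by field_simp

/-- Numerical computation of the cell of a rectangle. -/
theorem floor_nu {R q n a b c : ℕ} (hR : 0 < R)
    (h1 : (R * b + c) ^ 2 + R ^ 2 * 9 ^ q * a ^ 2 ≤ R ^ 2 * 9 ^ (n + q))
    (h2 : R ^ 2 * 9 ^ (n + q) < (R * b + c + 1) ^ 2 + R ^ 2 * 9 ^ q * a ^ 2) :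
    ⌊nu q n a b / (1 / (R : ℝ))⌋ = (c : ℤ) := by
  have hRr : (0 : ℝ) < R := by exact_mod_cast hR
  have h3n : (0 : ℝ) < 3 ^ n := by positivity
  have h3q : (0 : ℝ) < 3 ^ q := by positivity
  have h1' : ((R : ℝ) * b + c) ^ 2 + R ^ 2 * 9 ^ q * a ^ 2 ≤ R ^ 2 * 9 ^ (n + q) := by
    exact_mod_cast h1
  have h2' : (R : ℝ) ^ 2 * 9 ^ (n + q) < ((R : ℝ) * b + c + 1) ^ 2 + R ^ 2 * 9 ^ q * a ^ 2 := by
    exact_mod_cast h2
  have e9 : (9 : ℝ) ^ q = (3 ^ q) ^ 2 := by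
    rw [← pow_mul, mul_comm q 2, pow_mul]; norm_num
  have e9' : (9 : ℝ) ^ (n + q) = (3 ^ n) ^ 2 * (3 ^ q) ^ 2 := by
    rw [← mul_pow, ← pow_add, ← pow_mul, mul_comm (n + q) 2, pow_mul]; norm_num
  rw [e9, e9'] at h1' h2'
  set G : ℝ := (R : ℝ) * (3 ^ (n + q) * g ((a : ℝ) / 3 ^ n)) with hG
  have hG0 : 0 ≤ G := by
    have := g_nonneg ((a : ℝ) / 3 ^ n)
    positivity
  have hle : ((a : ℝ) / 3 ^ n) ^ 2 ≤ 1 := by
    rw [div_pow, div_le_one (by positivity)]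
    have : 0 ≤ ((R : ℝ) * b + c) ^ 2 := sq_nonneg _
    have h5 : (R : ℝ) ^ 2 * (3 ^ q) ^ 2 * (a : ℝ) ^ 2 ≤
        R ^ 2 * (3 ^ q) ^ 2 * (3 ^ n) ^ 2 := by nlinarith
    exact le_of_mul_le_mul_left h5 (by positivity)
  have hG2 : G ^ 2 = R ^ 2 * ((3 ^ n) ^ 2 * (3 ^ q) ^ 2) - R ^ 2 * (3 ^ q) ^ 2 * a ^ 2 := by
    have e : g ((a : ℝ) / 3 ^ n) ^ 2 = 1 - ((a : ℝ) / 3 ^ n) ^ 2 := by
      unfold g
      exact Real.sq_sqrt (by linarith)
    rw [hG, mul_pow, mul_pow, e, pow_add]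
    field_simp
  have hb0 : (0 : ℝ) ≤ (R : ℝ) * b + c := by positivity
  have k1 : (R : ℝ) * b + c ≤ G := by
    refine (abs_le_of_sq_le_sq' ?_ hG0).2
    rw [hG2]; linarith
  have k2 : G < (R : ℝ) * b + c + 1 := by
    refine lt_of_pow_lt_pow_left₀ 2 (by positivity) ?_
    rw [hG2]; linarith
  have e : nu q n a b / (1 / (R : ℝ)) = G - R * b := by
    rw [hG]
    unfold nu
    field_simp
  rw [e, Int.floor_eq_iff]
  push_cast
  constructor <;> linarith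

/-- Numerical form of the window. -/
theorem window_of {q n a U1 U2 D : ℕ} (hD : 0 < D) (ha : 0 < a) (han : a + 1 < 3 ^ n)
    (h1 : U1 ^ 2 * (9 ^ n - a ^ 2) ≤ D ^ 2 * 9 ^ q * a ^ 2)
    (h2 : D ^ 2 * 9 ^ q * (a + 1) ^ 2 ≤ U2 ^ 2 * (9 ^ n - (a + 1) ^ 2)) :
    Window q ((U1 : ℝ) / D) ((U2 : ℝ) / D) ((a : ℝ) / 3 ^ n) (((a : ℝ) + 1) / 3 ^ n) := by
  have hDr : (0 : ℝ) < D := by exact_mod_cast hD
  have h3n : (0 : ℝ) < 3 ^ n := by positivity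
  have h3q : (0 : ℝ) < 3 ^ q := by positivity
  have e9 : (9 : ℝ) ^ q = (3 ^ q) ^ 2 := by
    rw [← pow_mul, mul_comm q 2, pow_mul]; norm_num
  have e9n : (9 : ℝ) ^ n = (3 ^ n) ^ 2 := by
    rw [← pow_mul, mul_comm n 2, pow_mul]; norm_num
  have e9N : 9 ^ n = (3 ^ n) ^ 2 := by
    rw [← pow_mul, mul_comm n 2, pow_mul]; norm_num
  have hsub1 : a ^ 2 ≤ 9 ^ n := by
    rw [e9N]; exact Nat.pow_le_pow_left (by omega) 2
  have hsub2 : (a + 1) ^ 2 ≤ 9 ^ n := by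
    rw [e9N]; exact Nat.pow_le_pow_left (by omega) 2
  have h1' : (U1 : ℝ) ^ 2 * (9 ^ n - (a : ℝ) ^ 2) ≤ D ^ 2 * 9 ^ q * a ^ 2 := by
    have := (Nat.cast_le (α := ℝ)).mpr h1
    push_cast [Nat.cast_sub hsub1] at this
    exact this
  have h2' : (D : ℝ) ^ 2 * 9 ^ q * ((a : ℝ) + 1) ^ 2 ≤ U2 ^ 2 * (9 ^ n - ((a : ℝ) + 1) ^ 2) := by
    have := (Nat.cast_le (α := ℝ)).mpr h2
    push_cast [Nat.cast_sub hsub2] at this
    exact this
  rw [e9, e9n] at h1' h2'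
  have har : (0 : ℝ) < a := by exact_mod_cast ha
  refine ⟨by positivity, ?_, ?_, ?_⟩
  · rw [div_lt_one h3n]
    exact_mod_cast han
  · have e : ((U1 : ℝ) / D / 3 ^ q) ^ 2 * (1 - ((a : ℝ) / 3 ^ n) ^ 2) =
        (U1 : ℝ) ^ 2 * ((3 ^ n) ^ 2 - (a : ℝ) ^ 2) / (D ^ 2 * (3 ^ q) ^ 2 * (3 ^ n) ^ 2) := by
      field_simp
    have e' : ((a : ℝ) / 3 ^ n) ^ 2 =
        (D : ℝ) ^ 2 * (3 ^ q) ^ 2 * a ^ 2 / (D ^ 2 * (3 ^ q) ^ 2 * (3 ^ n) ^ 2) := by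
      field_simp
    rw [e, e']
    exact div_le_div_of_nonneg_right h1' (by positivity)
  · have e : ((U2 : ℝ) / D / 3 ^ q) ^ 2 * (1 - (((a : ℝ) + 1) / 3 ^ n) ^ 2) =
        (U2 : ℝ) ^ 2 * ((3 ^ n) ^ 2 - ((a : ℝ) + 1) ^ 2) /
          (D ^ 2 * (3 ^ q) ^ 2 * (3 ^ n) ^ 2) := by
      field_simp
    have e' : (((a : ℝ) + 1) / 3 ^ n) ^ 2 =
        (D : ℝ) ^ 2 * (3 ^ q) ^ 2 * ((a : ℝ) + 1) ^ 2 / (D ^ 2 * (3 ^ q) ^ 2 * (3 ^ n) ^ 2) := by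
      field_simp
    rw [e, e']
    exact div_le_div_of_nonneg_right h2' (by positivity)

end H60CD
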