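import Mathlib

/-!
# MP_54f706, Q2: the unit circle and the square of the middle-third Cantor set

Common definitions of the lower-bound part.
-/

namespace H60CD

/-- The points of the unit circle both of whose coordinates are in the middle-third Cantor set. -/
def E : Set (ℝ × ℝ) := {p | p.1 ^ 2 + p.2 ^ 2 = 1 ∧ p.1 ∈ cantorSet ∧ p.2 ∈ cantorSet}

/-- The upper half circle as a graph. -/
noncomputable def g (x : ℝ) : ℝ := Real.sqrt (1 - x ^ 2)

/-- `CN n a`: the natural number `a` has `n` ternary digits (leading zeros allowed), all of them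
`0` or `2`; so `a / 3 ^ n` is the left end of one of the `2 ^ n` basic intervals of level `n`. -/
inductive CN : ℕ → ℕ → Prop
  | zero : CN 0 0
  | s0 {n a : ℕ} : CN n a → CN (n + 1) (3 * a)
  | s2 {n a : ℕ} : CN n a → CN (n + 1) (3 * a + 2)

/-- Height of the circle over the lower left corner of the rectangle with lower left corner
`(a / 3 ^ n, b / 3 ^ (n + q))`, in units of `3 ^ (-(n + q))`. -/
noncomputable def nu (q n a b : ℕ) : ℝ := 3 ^ (n + q) * g ((a : ℝ) / 3 ^ n) - b

/-- The cell (of width `1 / R`) of this height. -/
noncomputable def cell (R q n a b : ℕ) : ℤ := ⌊(R : ℝ) * nu q n a b⌋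

end H60CD
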