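import Pool.Agent.Lib.H60U.Upper
import Pool.Agent.Lib.H60CD.Cantor

/-!
# MP_54f706, Q2: covers and dimension
-/

namespace H60CD

open Set MeasureTheory Real Topology Pool.Agent.Lib.H60U

/-- Covers with `N L ^ n` sets of diameter `s / 3 ^ (K n)`. -/
theorem dimH_le_of_cov_gen {S : Set (ℝ × ℝ)} {s N L : ℝ} {K : ℕ} (hK : 0 < K) (hs : 0 < s)
    (hL : 1 ≤ L) (h : ∀ n : ℕ, Cov S (s / 3 ^ (K * n)) (N * L ^ n)) :
    dimH S ≤ ENNReal.ofReal (Real.log L / (K * Real.log 3)) := by
  have hl3 : 0 < Real.log 3 := Real.log_pos (by norm_num)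
  have hK' : (0 : ℝ) < K := by exact_mod_cast hK
  set d : ℝ := Real.log L / (K * Real.log 3) with hd
  have hL0 : 0 < L := by linarith
  have hd0 : 0 ≤ d := div_nonneg (Real.log_nonneg hL) (by positivity)
  have hpow : ∀ n : ℕ, ((3 : ℝ) ^ (K * n)) ^ d = L ^ n := by
    intro n
    have e1 : ((3 : ℝ) ^ (K * n)) ^ d = Real.exp (Real.log 3 * ((K * n : ℕ) : ℝ) * d) := by
      rw [← Real.rpow_natCast, ← Real.rpow_mul (by norm_num), Real.rpow_def_of_pos (by norm_num)]
      ring_nf
    rw [e1, hd]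
    have e2 : Real.log 3 * ((K * n : ℕ) : ℝ) * (Real.log L / (K * Real.log 3)) =
        n * Real.log L := by
      push_cast
      field_simp
    rw [e2, Real.exp_nat_mul, Real.exp_log hL0]
  choose l h1 h2 h3 using h
  have hr : Filter.Tendsto (fun n : ℕ => ENNReal.ofReal (s / 3 ^ (K * n))) Filter.atTop (𝓝 0) := by
    have ht : Filter.Tendsto (fun n : ℕ => s / 3 ^ (K * n)) Filter.atTop (𝓝 0) := by
      have h4 : (1 / 3 : ℝ) ^ K < 1 := pow_lt_one₀ (by norm_num) (by norm_num) hK.ne'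
      have := (tendsto_pow_atTop_nhds_zero_of_lt_one (by positivity : (0 : ℝ) ≤ (1 / 3) ^ K)
        h4).const_mul s
      simp only [mul_zero] at this
      refine this.congr fun n => ?_
      rw [← pow_mul, one_div, inv_pow]; rfl
    have := ENNReal.tendsto_ofReal ht
    rwa [ENNReal.ofReal_zero] at this
  have key : μH[d] S ≤ ENNReal.ofReal (N * s ^ d) := by
    refine (Measure.hausdorffMeasure_le_liminf_sum d S _ hr
      (fun n (i : Fin (l n).length) => (l n).get i)
      (Filter.Eventually.of_forall fun n i => h2 n _ (List.get_mem _ _))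
      (Filter.Eventually.of_forall fun n p hp => ?_)).trans ?_
    · obtain ⟨U, hU, hpU⟩ := mem_iUnion₂.mp (h3 n hp)
      obtain ⟨i, hi⟩ := List.get_of_mem hU
      exact mem_iUnion.mpr ⟨i, by rw [hi]; exact hpU⟩
    · refine Filter.liminf_le_of_frequently_le' (Filter.Frequently.of_forall fun n => ?_)
      have hsn : 0 < s / 3 ^ (K * n) := by positivity
      calc ∑ i : Fin (l n).length, Metric.ediam ((l n).get i) ^ d
          ≤ ∑ _i : Fin (l n).length, ENNReal.ofReal (s / 3 ^ (K * n)) ^ d :=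
            Finset.sum_le_sum fun i _ =>
              ENNReal.rpow_le_rpow (h2 n _ (List.get_mem _ _)) hd0
        _ = ENNReal.ofReal ((l n).length * (s / 3 ^ (K * n)) ^ d) := by
            rw [Finset.sum_const, Finset.card_univ, Fintype.card_fin, nsmul_eq_mul,
              ENNReal.ofReal_rpow_of_pos hsn, ENNReal.ofReal_mul (by positivity),
              ENNReal.ofReal_natCast]
        _ ≤ ENNReal.ofReal (N * s ^ d) := by
            refine ENNReal.ofReal_le_ofReal ?_
            have e : (s / 3 ^ (K * n)) ^ d = s ^ d / L ^ n := by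
              rw [Real.div_rpow hs.le (by positivity), hpow]
            rw [e]
            have h5 : 0 ≤ s ^ d / L ^ n := by positivity
            calc ((l n).length : ℝ) * (s ^ d / L ^ n)
                ≤ (N * L ^ n) * (s ^ d / L ^ n) :=
                  mul_le_mul_of_nonneg_right (h1 n) h5
              _ = N * s ^ d := by field_simp
  have hne : μH[((⟨d, hd0⟩ : NNReal) : ℝ)] S ≠ ⊤ :=
    ne_top_of_le_ne_top ENNReal.ofReal_ne_top key
  have := dimH_le_of_hausdorffMeasure_ne_top hne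
  refine this.trans_eq ?_
  rw [ENNReal.ofReal, Real.toNNReal_of_nonneg hd0]
  rfl

/-- Finite unions of covers. -/
lemma cov_biUnion {ι : Type*} {S : Set (ℝ × ℝ)} {r N : ℝ} (F : Finset ι)
    (P : ι → Set (ℝ × ℝ)) (hS : S ⊆ ⋃ i ∈ F, P i) (h : ∀ i ∈ F, Cov (P i) r N) :
    Cov S r (F.card * N) := by
  classical
  induction F using Finset.induction_on generalizing S with
  | empty =>
    have : S = ∅ := by
      rw [Set.eq_empty_iff_forall_notMem]
      intro x hx
      simpa using hS hx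
    rw [this]
    exact Cov.empty _ (by simp)
  | insert i F hi ih =>
    have h1 := h i (Finset.mem_insert_self _ _)
    have h2 := @ih (⋃ j ∈ F, P j) subset_rfl (fun j hj => h j (Finset.mem_insert_of_mem hj))
    refine (h1.union h2).mono ?_ ?_
    · intro x hx
      obtain ⟨j, hj, hxj⟩ := mem_iUnion₂.mp (hS hx)
      rcases Finset.mem_insert.mp hj with rfl | hj
      · exact Or.inl hxj
      · exact Or.inr (mem_iUnion₂.mpr ⟨j, hj, hxj⟩)
    · rw [Finset.card_insert_of_notMem hi]
      push_cast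
      linarith

/-- Slopes near the abscissa `x0`. -/
lemma exists_window {x0 : ℝ} (h0 : 0 < x0) (h1 : x0 < 1) {δ : ℝ} (hδ : 0 < δ) :
    ∃ X0 X1 t0 t1 : ℝ, 0 < X0 ∧ X0 < x0 ∧ x0 < X1 ∧ X1 < 1 ∧ 0 < t0 ∧ 0 < t1 ∧
      t0 ^ 2 * (1 - X0 ^ 2) ≤ X0 ^ 2 ∧ X1 ^ 2 ≤ t1 ^ 2 * (1 - X1 ^ 2) ∧
      x0 / H60CD.g x0 - δ ≤ t0 ∧ t1 ≤ x0 / H60CD.g x0 + δ := by
  have gpos : ∀ x, 0 < x → x < 1 → 0 < H60CD.g x := fun x h h' => by
    unfold H60CD.g
    exact Real.sqrt_pos.mpr (by nlinarith)
  have gsq : ∀ x, 0 < x → x < 1 → H60CD.g x ^ 2 = 1 - x ^ 2 := fun x h h' => by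
    unfold H60CD.g
    exact Real.sq_sqrt (by nlinarith)
  have hcont : ContinuousAt (fun x => x / H60CD.g x) x0 := by
    refine continuousAt_id.div ?_ (gpos x0 h0 h1).ne'
    unfold H60CD.g
    fun_prop
  obtain ⟨η, hη, hnear⟩ := Metric.continuousAt_iff.mp hcont δ hδ
  set r : ℝ := min (η / 2) (min (x0 / 2) ((1 - x0) / 2)) with hr
  have hr0 : 0 < r := by
    rw [hr]
    refine lt_min (by linarith) (lt_min (by linarith) (by linarith))
  have hr1 : r ≤ η / 2 := min_le_left _ _
  have hr2 : r ≤ x0 / 2 := (min_le_right _ _).trans (min_le_left _ _)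
  have hr3 : r ≤ (1 - x0) / 2 := (min_le_right _ _).trans (min_le_right _ _)
  have a0 : 0 < x0 - r := by linarith
  have a1 : x0 - r < 1 := by linarith
  have b0 : 0 < x0 + r := by linarith
  have b1 : x0 + r < 1 := by linarith
  refine ⟨x0 - r, x0 + r, (x0 - r) / H60CD.g (x0 - r), (x0 + r) / H60CD.g (x0 + r), a0,
    by linarith, by linarith, b1, div_pos a0 (gpos _ a0 a1), div_pos b0 (gpos _ b0 b1), ?_, ?_,
    ?_, ?_⟩
  · rw [← gsq _ a0 a1, div_pow, div_mul_cancel₀ _ (pow_ne_zero 2 (gpos _ a0 a1).ne')]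
  · rw [← gsq _ b0 b1, div_pow, div_mul_cancel₀ _ (pow_ne_zero 2 (gpos _ b0 b1).ne')]
  · have : dist (x0 - r) x0 < η := by
      rw [Real.dist_eq, show x0 - r - x0 = -r by ring, abs_neg, abs_of_pos hr0]; linarith
    have := hnear this
    rw [Real.dist_eq] at this
    have := (abs_lt.mp this).1
    linarith
  · have : dist (x0 + r) x0 < η := by
      rw [Real.dist_eq, show x0 + r - x0 = r by ring, abs_of_pos hr0]; linarith
    have := hnear this
    rw [Real.dist_eq] at this
    have := (abs_lt.mp this).2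
    linarith

end H60CD
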