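import Pool.Agent.Lib.H60CD.Defs

/-!
# MP_54f706, Q2: the intersection as a subset of the Euclidean plane
-/

namespace H60CD

open Set

/-- The Euclidean plane version has the same dimension. -/
theorem dimH_euclidean :
    dimH {p : EuclideanSpace ℝ (Fin 2) | p 0 ^ 2 + p 1 ^ 2 = 1 ∧ p 0 ∈ cantorSet ∧
      p 1 ∈ cantorSet} = dimH E := by
  set e : EuclideanSpace ℝ (Fin 2) ≃L[ℝ] ℝ × ℝ :=
    (EuclideanSpace.equiv (Fin 2) ℝ).trans (ContinuousLinearEquiv.finTwoArrow ℝ ℝ) with he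
  have h1 : ∀ p : EuclideanSpace ℝ (Fin 2), e p = (p 0, p 1) := by
    intro p
    rfl
  rw [← e.dimH_image]
  congr 1
  ext x
  constructor
  · rintro ⟨p, hp, rfl⟩
    rw [h1]
    exact hp
  · intro hx
    refine ⟨e.symm x, ?_, e.apply_symm_apply x⟩
    have h2 := h1 (e.symm x)
    rw [e.apply_symm_apply] at h2
    have h3 : (e.symm x) 0 = x.1 := (congrArg Prod.fst h2).symm
    have h4 : (e.symm x) 1 = x.2 := (congrArg Prod.snd h2).symm
    show (e.symm x) 0 ^ 2 + (e.symm x) 1 ^ 2 = 1 ∧ (e.symm x) 0 ∈ cantorSet ∧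
      (e.symm x) 1 ∈ cantorSet
    rw [h3, h4]
    exact hx

end H60CD
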