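import Pool.Agent.Lib.H60CD.Main
import Pool.Agent.Lib.H60CD.Euclid
import Pool.Agent.Lib.H21X.Bridge
import Pool.Agent.Lib.H59Q.H6
import Pool.Agent.Lib.H92Q.Curve

/-!
# MP_54f706, Q2: the dimension of the intersection
-/

namespace H60CD

open Set MeasureTheory Real Topology Pool.Agent.Lib.H59Q

theorem robustSlopes : RobustSlopes :=
  robustSlopes_of Pool.Agent.Lib.H21X.lowerGrowth (typicalSlopes Pool.Agent.Lib.H21X.upperGrowth)

theorem dimH_E : dimH E = ENNReal.ofReal (2 * Real.log 2 / Real.log 3 - 1) := by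
  have hc := Pool.Agent.Lib.H92Q.curveCert
  obtain ⟨M, S, c, hM, hc0, hS, hgrow⟩ := growth_of_cert hc.robust
  have hMr : (0 : ℝ) < M := by exact_mod_cast hM
  have hρ := hc.ρ_pos
  have hslopes := robustSlopes 5 _ _ (1 / ((59049 : ℕ) : ℝ) / M) c _ S hc.K_pos hc.hu₁ hc.hu₂
    (by positivity) hc0 hc.one_lt hgrow
  have hw := Pool.Agent.Lib.H92Q.root_window
  obtain ⟨k, hk, hdim⟩ := exists_lim hc hw Pool.Agent.Lib.H92Q.root_a Pool.Agent.Lib.H92Q.root_b
    Pool.Agent.Lib.H92Q.root_good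
  have hu₁ : 0 < (((2385520793 : ℕ) : ℝ) / (1000000000 : ℕ)) :=
    lt_of_lt_of_le (by norm_num) hc.hu₁
  have hu₂ := hu₁.trans hc.hu
  refine le_antisymm (dimH_E_le_of Pool.Agent.Lib.H21X.upperGrowth) ?_
  refine le_dimH_E (q := 2) (k := k) (n0 := 21) (S := S)
    (ρ := 1 / ((59049 : ℕ) : ℝ) / M) (by positivity) hk hslopes _ ?_
    (lim_range hu₁ hu₂ hw) hdim
  rintro n a b ⟨-, -, hab⟩
  left
  rw [hS, floor_refine hM]
  exact hab

end H60CD
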