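import Pool.Agent.Lib.H60CD.Defs

/-!
# MP_54f706, Q2: the four children of a rectangle met by the circle
-/

namespace H60CD

lemma g_sq {x : ℝ} (h0 : 0 ≤ x) (h1 : x ≤ 1) : g x ^ 2 = 1 - x ^ 2 := by
  unfold g
  exact Real.sq_sqrt (by nlinarith)

lemma g_pos {x : ℝ} (h0 : 0 ≤ x) (h1 : x < 1) : 0 < g x := by
  unfold g
  exact Real.sqrt_pos.mpr (by nlinarith)

lemma g_nonneg (x : ℝ) : 0 ≤ g x := Real.sqrt_nonneg _

lemma g_anti {x y : ℝ} (h0 : 0 ≤ x) (hxy : x ≤ y) : g y ≤ g x := by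
  unfold g
  exact Real.sqrt_le_sqrt (by nlinarith)

/-- Chord slopes inside `[X0, X1]` lie between the slopes at the ends. -/
lemma slope_window {X0 X1 x y : ℝ} (h0 : 0 ≤ X0) (hx : X0 ≤ x) (hxy : x ≤ y)
    (hy : y ≤ X1) :
    X0 * (g x + g y) ≤ (x + y) * g X0 ∧ (x + y) * g X1 ≤ X1 * (g x + g y) := by
  have hgx : g x ≤ g X0 := g_anti h0 hx
  have hgy : g y ≤ g X0 := g_anti h0 (hx.trans hxy)
  have hgx' : g X1 ≤ g x := g_anti (h0.trans hx) (hxy.trans hy)
  have hgy' : g X1 ≤ g y := g_anti (h0.trans (hx.trans hxy)) hy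
  have e0 := g_nonneg x
  have e1 := g_nonneg y
  have e2 := g_nonneg X0
  have e3 := g_nonneg X1
  constructor
  · have i1 : X0 * (g x + g y) ≤ X0 * (g X0 + g X0) :=
      mul_le_mul_of_nonneg_left (by linarith) h0
    have i2 : (X0 + X0) * g X0 ≤ (x + y) * g X0 :=
      mul_le_mul_of_nonneg_right (by linarith) e2
    nlinarith
  · have hX1 : 0 ≤ X1 := h0.trans (hx.trans (hxy.trans hy))
    have i1 : X1 * (g X1 + g X1) ≤ X1 * (g x + g y) :=
      mul_le_mul_of_nonneg_left (by linarith) hX1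
    have i2 : (x + y) * g X1 ≤ (X1 + X1) * g X1 :=
      mul_le_mul_of_nonneg_right (by linarith) e3
    nlinarith

/-- The drop of the circle between the left end of the interval and the left end of its right
child. -/
lemma drop {R P q : ℕ} {X0 X1 x y : ℝ} (h0 : 0 ≤ X0) (h1 : X1 < 1) (hP : 1 ≤ P)
    (hlo : ((P : ℝ) - 1) ^ 2 * (1 - X0 ^ 2) ≤ (2 * R * 3 ^ q * X0) ^ 2)
    (hhi : (2 * R * 3 ^ q * X1) ^ 2 ≤ (P : ℝ) ^ 2 * (1 - X1 ^ 2))
    (hx : X0 ≤ x) (hxy : x < y) (hy : y ≤ X1) :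
    ((P : ℝ) - 1) * (y - x) ≤ 2 * R * 3 ^ q * (g x - g y) ∧
      2 * R * 3 ^ q * (g x - g y) ≤ P * (y - x) := by
  obtain ⟨w1, w2⟩ := slope_window h0 hx hxy.le hy
  have hx0 : 0 ≤ x := h0.trans hx
  have hy0 : 0 ≤ y := hx0.trans hxy.le
  have hx1 : x < 1 := (hxy.trans_le hy).trans h1
  have hy1 : y < 1 := hy.trans_lt h1
  have gx := g_pos hx0 hx1
  have gy := g_pos hy0 hy1
  have gX0 : 0 < g X0 := g_pos h0 ((hx.trans_lt hx1))
  have gX1 : 0 < g X1 := g_pos (hy0.trans hy) h1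
  have sX0 := g_sq h0 (hx.trans hx1.le)
  have sX1 := g_sq (hy0.trans hy) h1.le
  have sx := g_sq hx0 hx1.le
  have sy := g_sq hy0 hy1.le
  have hkey : (g x - g y) * (g x + g y) = (y - x) * (x + y) := by nlinarith
  have hP' : (0 : ℝ) ≤ (P : ℝ) - 1 := by
    have : (1 : ℝ) ≤ P := by exact_mod_cast hP
    linarith
  set K : ℝ := 2 * R * 3 ^ q with hK
  have hK0 : 0 ≤ K := by positivity
  have a1 : ((P : ℝ) - 1) * g X0 ≤ K * X0 := by
    refine abs_le_of_sq_le_sq' ?_ (by positivity) |>.2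
    rw [mul_pow, sX0]
    exact hlo
  have a2 : K * X1 ≤ P * g X1 := by
    refine abs_le_of_sq_le_sq' ?_ (by positivity) |>.2
    rw [mul_pow (P : ℝ) (g X1) 2, sX1]
    exact hhi
  have hd : 0 < y - x := by linarith
  have hs : 0 < g x + g y := by linarith
  -- `K (x + y) ≥ (P - 1) (g x + g y)`
  have b1 : ((P : ℝ) - 1) * (g x + g y) ≤ K * (x + y) := by
    by_contra hcon
    push Not at hcon
    have c1 : K * (x + y) * g X0 < ((P : ℝ) - 1) * (g x + g y) * g X0 :=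
      mul_lt_mul_of_pos_right hcon gX0
    have c2 : ((P : ℝ) - 1) * g X0 * (g x + g y) ≤ K * X0 * (g x + g y) :=
      mul_le_mul_of_nonneg_right a1 hs.le
    have c3 : K * (X0 * (g x + g y)) ≤ K * ((x + y) * g X0) :=
      mul_le_mul_of_nonneg_left w1 hK0
    nlinarith
  have b2 : K * (x + y) ≤ P * (g x + g y) := by
    by_contra hcon
    push Not at hcon
    have c1 : P * (g x + g y) * g X1 < K * (x + y) * g X1 :=
      mul_lt_mul_of_pos_right hcon gX1
    have c2 : K * X1 * (g x + g y) ≤ P * g X1 * (g x + g y) :=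
      mul_le_mul_of_nonneg_right a2 hs.le
    have c3 : K * ((x + y) * g X1) ≤ K * (X1 * (g x + g y)) :=
      mul_le_mul_of_nonneg_left w2 hK0
    nlinarith
  constructor
  · have c1 : ((P : ℝ) - 1) * (y - x) * (g x + g y) ≤ K * (g x - g y) * (g x + g y) := by
      have := mul_le_mul_of_nonneg_left b1 hd.le
      calc ((P : ℝ) - 1) * (y - x) * (g x + g y)
          = (y - x) * (((P : ℝ) - 1) * (g x + g y)) := by ring
        _ ≤ (y - x) * (K * (x + y)) := this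
        _ = K * ((y - x) * (x + y)) := by ring
        _ = K * ((g x - g y) * (g x + g y)) := by rw [hkey]
        _ = K * (g x - g y) * (g x + g y) := by ring
    exact le_of_mul_le_mul_right c1 hs
  · have c1 : K * (g x - g y) * (g x + g y) ≤ P * (y - x) * (g x + g y) := by
      have := mul_le_mul_of_nonneg_left b2 hd.le
      calc K * (g x - g y) * (g x + g y) = K * ((g x - g y) * (g x + g y)) := by ring
        _ = K * ((y - x) * (x + y)) := by rw [hkey]
        _ = (y - x) * (K * (x + y)) := by ring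
        _ ≤ (y - x) * (P * (g x + g y)) := this
        _ = P * (y - x) * (g x + g y) := by ring
    exact le_of_mul_le_mul_right c1 hs

/-- The cells of the four children. -/
theorem cell_children {R P q : ℕ} {X0 X1 : ℝ} (h0 : 0 ≤ X0) (h1 : X1 < 1) (hP : 1 ≤ P)
    (hlo : ((P : ℝ) - 1) ^ 2 * (1 - X0 ^ 2) ≤ (2 * R * 3 ^ q * X0) ^ 2)
    (hhi : (2 * R * 3 ^ q * X1) ^ 2 ≤ (P : ℝ) ^ 2 * (1 - X1 ^ 2))
    {n a b : ℕ} (ha : X0 ≤ (a : ℝ) / 3 ^ n) (ha' : ((a : ℝ) + 1) / 3 ^ n ≤ X1) :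
    ∃ j e : ℤ, 0 ≤ j ∧ j ≤ 2 ∧ 0 ≤ e ∧ e ≤ 1 ∧ ∀ d : ℕ,
      cell R q (n + 1) (3 * a) (3 * b + d) = 3 * cell R q n a b + j - d * R ∧
      cell R q (n + 1) (3 * a + 2) (3 * b + d) = 3 * cell R q n a b + j - P + e - d * R := by
  have h3 : (0 : ℝ) < 3 ^ n := by positivity
  set x : ℝ := (a : ℝ) / 3 ^ n with hxdef
  set y : ℝ := (3 * (a : ℝ) + 2) / 3 ^ (n + 1) with hydef
  have hyx : y - x = 2 / 3 ^ (n + 1) := by
    rw [hydef, hxdef, pow_succ]
    field_simp
    ring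
  have hxy : x < y := by
    have : (0 : ℝ) < 2 / 3 ^ (n + 1) := by positivity
    linarith
  have hy : y ≤ X1 := by
    refine le_trans ?_ ha'
    rw [hydef, pow_succ, div_le_div_iff₀ (by positivity) (by positivity)]
    nlinarith
  obtain ⟨d1, d2⟩ := drop h0 h1 hP hlo hhi ha hxy hy
  -- real heights
  set v : ℝ := (R : ℝ) * nu q n a b with hv
  set c : ℤ := cell R q n a b with hc
  have hcv : c = ⌊v⌋ := rfl
  have hfl1 : (c : ℝ) ≤ v := by rw [hcv]; exact Int.floor_le v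
  have hfl2 : v < c + 1 := by rw [hcv]; exact Int.lt_floor_add_one v
  -- drop in cells
  set D : ℝ := (R : ℝ) * 3 ^ (n + 1 + q) * (g x - g y) with hD
  have hD1 : (P : ℝ) - 1 ≤ D := by
    have : ((P : ℝ) - 1) * (y - x) * (3 ^ (n + 1) / 2) ≤
        2 * R * 3 ^ q * (g x - g y) * (3 ^ (n + 1) / 2) :=
      mul_le_mul_of_nonneg_right d1 (by positivity)
    rw [hyx] at this
    have e1 : ((P : ℝ) - 1) * (2 / 3 ^ (n + 1)) * (3 ^ (n + 1) / 2) = (P : ℝ) - 1 := by
      field_simp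
    have e2 : 2 * (R : ℝ) * 3 ^ q * (g x - g y) * (3 ^ (n + 1) / 2) = D := by
      rw [hD, pow_add (3 : ℝ) (n + 1) q]
      ring
    rw [e1, e2] at this
    exact this
  have hD2 : D ≤ P := by
    have : 2 * R * 3 ^ q * (g x - g y) * (3 ^ (n + 1) / 2) ≤
        (P : ℝ) * (y - x) * (3 ^ (n + 1) / 2) :=
      mul_le_mul_of_nonneg_right d2 (by positivity)
    rw [hyx] at this
    have e1 : (P : ℝ) * (2 / 3 ^ (n + 1)) * (3 ^ (n + 1) / 2) = (P : ℝ) := by
      field_simp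
    have e2 : 2 * (R : ℝ) * 3 ^ q * (g x - g y) * (3 ^ (n + 1) / 2) = D := by
      rw [hD, pow_add (3 : ℝ) (n + 1) q]
      ring
    rw [e1, e2] at this
    exact this
  refine ⟨⌊3 * v⌋ - 3 * c, ⌊3 * v - D⌋ - ⌊3 * v⌋ + P, ?_, ?_, ?_, ?_, ?_⟩
  · have : 3 * c ≤ ⌊3 * v⌋ := by
      rw [Int.le_floor]; push_cast; linarith
    linarith
  · have : ⌊3 * v⌋ < 3 * c + 3 := by
      rw [Int.floor_lt]; push_cast; linarith
    linarith
  · have : ⌊3 * v⌋ - (P : ℤ) ≤ ⌊3 * v - D⌋ := by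
      rw [Int.le_floor]; push_cast
      have := Int.floor_le (3 * v)
      linarith
    linarith
  · have : ⌊3 * v - D⌋ < ⌊3 * v⌋ - (P : ℤ) + 2 := by
      rw [Int.floor_lt]; push_cast
      have := Int.lt_floor_add_one (3 * v)
      linarith
    linarith
  · intro d
    have hxe : ((3 * a : ℕ) : ℝ) / 3 ^ (n + 1) = x := by
      rw [hxdef, pow_succ]; push_cast; field_simp
    have hye : ((3 * a + 2 : ℕ) : ℝ) / 3 ^ (n + 1) = y := by
      rw [hydef]; push_cast; ring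
    constructor
    · have e1 : (R : ℝ) * nu q (n + 1) (3 * a) (3 * b + d) = 3 * v - ((d * R : ℕ) : ℤ) := by
        rw [hv]; unfold nu; rw [hxe]; push_cast
        rw [show n + 1 + q = (n + q) + 1 by ring, pow_succ]
        ring
      unfold cell
      rw [e1, Int.floor_sub_intCast]
      push_cast
      ring
    · have e1 : (R : ℝ) * nu q (n + 1) (3 * a + 2) (3 * b + d)
          = (3 * v - D) - ((d * R : ℕ) : ℤ) := by
        rw [hv, hD]; unfold nu; rw [hye]; push_cast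
        rw [show n + 1 + q = (n + q) + 1 by ring, pow_succ]
        ring
      unfold cell
      rw [e1, Int.floor_sub_intCast]
      push_cast
      ring

end H60CD
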