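import Pool.Agent.Lib.H60CD.Geom

/-!
# MP_54f706, Q2: descendants several levels below a rectangle met by the circle
-/

namespace H60CD

/-- The mean slope of the circle over `[x, y]` is between the slopes at the ends of the interval
`[X0, X1]` (rational bounds `t0`, `t1` for these). -/
lemma drop_real {X0 X1 t0 t1 x y : ℝ} (h0 : 0 ≤ X0) (h1 : X1 < 1) (ht1 : 0 ≤ t1)
    (hlo : t0 ^ 2 * (1 - X0 ^ 2) ≤ X0 ^ 2) (hhi : X1 ^ 2 ≤ t1 ^ 2 * (1 - X1 ^ 2))
    (hx : X0 ≤ x) (hxy : x ≤ y) (hy : y ≤ X1) :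
    t0 * (y - x) ≤ g x - g y ∧ g x - g y ≤ t1 * (y - x) := by
  obtain ⟨w1, w2⟩ := slope_window h0 hx hxy hy
  have hx0 : 0 ≤ x := h0.trans hx
  have hy0 : 0 ≤ y := hx0.trans hxy
  have hx1 : x < 1 := (hxy.trans hy).trans_lt h1
  have hy1 : y < 1 := hy.trans_lt h1
  have gx := g_pos hx0 hx1
  have gy := g_pos hy0 hy1
  have gX0 : 0 < g X0 := g_pos h0 ((hx.trans_lt hx1))
  have gX1 : 0 < g X1 := g_pos (hy0.trans hy) h1
  have sX0 := g_sq h0 (hx.trans hx1.le)
  have sX1 := g_sq (hy0.trans hy) h1.le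
  have sx := g_sq hx0 hx1.le
  have sy := g_sq hy0 hy1.le
  have hkey : (g x - g y) * (g x + g y) = (y - x) * (x + y) := by nlinarith
  have a1 : t0 * g X0 ≤ X0 := by
    refine (abs_le_of_sq_le_sq' ?_ h0).2
    rw [mul_pow, sX0]
    exact hlo
  have a2 : X1 ≤ t1 * g X1 := by
    refine (abs_le_of_sq_le_sq' ?_ (by positivity)).2
    rw [mul_pow t1 (g X1) 2, sX1]
    exact hhi
  have hd : 0 ≤ y - x := by linarith
  have hs : 0 < g x + g y := by linarith
  have b1 : t0 * (g x + g y) ≤ x + y := by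
    by_contra hcon
    push Not at hcon
    have c1 : (x + y) * g X0 < t0 * (g x + g y) * g X0 := mul_lt_mul_of_pos_right hcon gX0
    have c2 : t0 * g X0 * (g x + g y) ≤ X0 * (g x + g y) := mul_le_mul_of_nonneg_right a1 hs.le
    nlinarith
  have b2 : x + y ≤ t1 * (g x + g y) := by
    by_contra hcon
    push Not at hcon
    have c1 : t1 * (g x + g y) * g X1 < (x + y) * g X1 := mul_lt_mul_of_pos_right hcon gX1
    have c2 : X1 * (g x + g y) ≤ t1 * g X1 * (g x + g y) := mul_le_mul_of_nonneg_right a2 hs.le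
    nlinarith
  constructor
  · have c1 : t0 * (y - x) * (g x + g y) ≤ (g x - g y) * (g x + g y) := by
      have := mul_le_mul_of_nonneg_left b1 hd
      rw [hkey]
      linarith
    exact le_of_mul_le_mul_right c1 hs
  · have c1 : (g x - g y) * (g x + g y) ≤ t1 * (y - x) * (g x + g y) := by
      have := mul_le_mul_of_nonneg_left b2 hd
      rw [hkey]
      linarith
    exact le_of_mul_le_mul_right c1 hs

/-- Height over a descendant `K` levels below: linear up to the error in the slope. -/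
theorem nu_desc {X0 X1 t0 t1 : ℝ} (h0 : 0 ≤ X0) (h1 : X1 < 1) (ht1 : 0 ≤ t1)
    (hlo : t0 ^ 2 * (1 - X0 ^ 2) ≤ X0 ^ 2) (hhi : X1 ^ 2 ≤ t1 ^ 2 * (1 - X1 ^ 2))
    {q K n a b A B : ℕ} (ha : X0 ≤ (a : ℝ) / 3 ^ n) (ha' : ((a : ℝ) + 1) / 3 ^ n ≤ X1)
    (hA : A < 3 ^ K) :
    3 ^ K * nu q n a b - B - A * (3 ^ q * t1) ≤ nu q (n + K) (3 ^ K * a + A) (3 ^ K * b + B) ∧
      nu q (n + K) (3 ^ K * a + A) (3 ^ K * b + B) ≤ 3 ^ K * nu q n a b - B - A * (3 ^ q * t0) := by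
  set x : ℝ := (a : ℝ) / 3 ^ n with hxdef
  set y : ℝ := ((3 ^ K * a + A : ℕ) : ℝ) / 3 ^ (n + K) with hydef
  have hyx : y - x = A / 3 ^ (n + K) := by
    rw [hydef, hxdef, pow_add]
    push_cast
    field_simp
    ring
  have hxy : x ≤ y := by
    have : (0 : ℝ) ≤ A / 3 ^ (n + K) := by positivity
    linarith
  have hA' : (A : ℝ) ≤ 3 ^ K := by exact_mod_cast hA.le
  have hy : y ≤ X1 := by
    refine le_trans ?_ ha'
    rw [hydef, pow_add, div_le_div_iff₀ (by positivity) (by positivity)]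
    push_cast
    have h3 : (0 : ℝ) < 3 ^ n := by positivity
    nlinarith [mul_le_mul_of_nonneg_right hA' h3.le]
  obtain ⟨d1, d2⟩ := drop_real h0 h1 ht1 hlo hhi ha hxy hy
  have key : nu q (n + K) (3 ^ K * a + A) (3 ^ K * b + B) =
      3 ^ K * nu q n a b - B - 3 ^ (n + K + q) * (g x - g y) := by
    unfold nu
    rw [← hydef, ← hxdef]
    push_cast
    rw [show n + K + q = (n + q) + K by ring, pow_add (3 : ℝ) (n + q) K]
    ring
  have hpos : (0 : ℝ) < 3 ^ (n + K + q) := by positivity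
  have e : ∀ t : ℝ, 3 ^ (n + K + q) * (t * (y - x)) = A * (3 ^ q * t) := by
    intro t
    rw [hyx, pow_add (3 : ℝ) (n + K) q]
    field_simp
  have u1 := mul_le_mul_of_nonneg_left d1 hpos.le
  have u2 := mul_le_mul_of_nonneg_left d2 hpos.le
  rw [e] at u1 u2
  rw [key]
  constructor <;> linarith

/-- The cell of a descendant `K` levels below. -/
theorem cell_desc {X0 X1 t0 t1 : ℝ} (h0 : 0 ≤ X0) (h1 : X1 < 1) (ht1 : 0 ≤ t1)
    (hlo : t0 ^ 2 * (1 - X0 ^ 2) ≤ X0 ^ 2) (hhi : X1 ^ 2 ≤ t1 ^ 2 * (1 - X1 ^ 2))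
    {R q K n a b A B s : ℕ} (ha : X0 ≤ (a : ℝ) / 3 ^ n) (ha' : ((a : ℝ) + 1) / 3 ^ n ≤ X1)
    (hA : A < 3 ^ K) (hs0 : (s : ℝ) - 1 ≤ R * A * (3 ^ q * t0))
    (hs1 : R * A * (3 ^ q * t1) ≤ s) :
    ∃ e : ℤ, 0 ≤ e ∧ e ≤ 1 ∧ (A = 0 → e = s) ∧
      cell R q (n + K) (3 ^ K * a + A) (3 ^ K * b + B) =
        ⌊(3 ^ K * R : ℝ) * nu q n a b⌋ - s + e - B * R := by
  obtain ⟨u1, u2⟩ := nu_desc (q := q) (b := b) (B := B) h0 h1 ht1 hlo hhi ha ha' hA
  set v : ℝ := (3 ^ K * R : ℝ) * nu q n a b with hv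
  set v' : ℝ := nu q (n + K) (3 ^ K * a + A) (3 ^ K * b + B) with hv'
  have hR : (0 : ℝ) ≤ R := by positivity
  have w1 := mul_le_mul_of_nonneg_left u1 hR
  have w2 := mul_le_mul_of_nonneg_left u2 hR
  have hfl := Int.floor_le v
  have hfl' := Int.lt_floor_add_one v
  have lo : v - s - B * R ≤ R * v' := by
    have : (R : ℝ) * (3 ^ K * nu q n a b - B - A * (3 ^ q * t1)) =
      v - R * A * (3 ^ q * t1) - B * R := by rw [hv]; ring
    rw [this] at w1
    linarith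
  have hi : R * v' ≤ v - s + 1 - B * R := by
    have : (R : ℝ) * (3 ^ K * nu q n a b - B - A * (3 ^ q * t0)) =
      v - R * A * (3 ^ q * t0) - B * R := by rw [hv]; ring
    rw [this] at w2
    linarith
  by_cases hA0 : A = 0
  · subst hA0
    have e0 : R * v' = v - ((B * R : ℕ) : ℤ) := by
      have f1 : (R : ℝ) * v' ≤ v - B * R := by
        have : (R : ℝ) * (3 ^ K * nu q n a b - B - ((0 : ℕ) : ℝ) * (3 ^ q * t0)) =
          v - B * R := by rw [hv]; push_cast; ring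
        linarith
      have f2 : v - B * R ≤ (R : ℝ) * v' := by
        have : (R : ℝ) * (3 ^ K * nu q n a b - B - ((0 : ℕ) : ℝ) * (3 ^ q * t1)) =
          v - B * R := by rw [hv]; push_cast; ring
        linarith
      push_cast
      linarith
    have hs : (s : ℝ) ≤ 1 := by
      have : (R : ℝ) * ((0 : ℕ) : ℝ) * (3 ^ q * t0) = 0 := by push_cast; ring
      linarith
    have hs1' : (s : ℤ) ≤ 1 := by exact_mod_cast hs
    refine ⟨s, by positivity, hs1', fun _ => rfl, ?_⟩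
    unfold cell
    rw [← hv', e0, Int.floor_sub_intCast]
    push_cast
    ring
  · refine ⟨⌊(R : ℝ) * v'⌋ - ⌊v⌋ + s + B * R, ?_, ?_, fun h => absurd h hA0, ?_⟩
    · have : ⌊v⌋ - s - B * R ≤ ⌊(R : ℝ) * v'⌋ := by
        rw [Int.le_floor]; push_cast; linarith
      linarith
    · have : ⌊(R : ℝ) * v'⌋ < ⌊v⌋ - s - B * R + 2 := by
        rw [Int.floor_lt]; push_cast; linarith
      linarith
    · unfold cell
      rw [← hv']
      ring

end H60CD
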