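import Pool.Agent.Lib.H60CD.Up2
import Pool.Agent.Lib.H59Q.Defs

/-!
# MP_54f706, Q2: geometry of the sharp theorem

The linear statements (`UpperGrowth`, `RobustGrowth`) give the dimension of the intersection.
-/

namespace H60CD

open Set MeasureTheory Real Topology Pool.Agent.Lib.H59Q

lemma mem_C {n a : ℕ} : a ∈ C n ↔ CN n a := by
  rw [← mem_CF]
  unfold C
  induction n generalizing a with
  | zero => simp [Cd, CF]
  | succ n ih =>
    rw [Cd, CF, Finset.mem_union, Finset.mem_image, Finset.mem_image, Finset.mem_image]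
    constructor
    · rintro ⟨⟨c, d⟩, hcd, rfl⟩
      rw [Finset.mem_product] at hcd
      obtain ⟨h1, h2⟩ := hcd
      simp only at h1 h2
      rw [Finset.mem_insert, Finset.mem_singleton] at h2
      rcases h2 with rfl | rfl
      · exact Or.inl ⟨c, ih.mp h1, rfl⟩
      · exact Or.inr ⟨c, ih.mp h1, rfl⟩
    · rintro (⟨c, hc, rfl⟩ | ⟨c, hc, rfl⟩)
      · exact ⟨(c, 0), by simp [ih.mpr hc], rfl⟩
      · exact ⟨(c, 2), by simp [ih.mpr hc], rfl⟩

lemma C_eq_CF (n : ℕ) : C n = CF n := by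
  ext a
  rw [mem_C, mem_CF]

lemma flat_of_upperGrowth (h : UpperGrowth) {t : ℝ} (ht : 0 < t) (hirr : Irrational t) :
    Flat t := by
  intro W ε hε
  obtain ⟨K, hK, hcount⟩ := h 3 {0, 2} t W ε (by norm_num) (by simp) (by simp) hirr ht hε
  refine ⟨K, fun n x => ?_⟩
  have h1 := hcount n x
  have e : max (1 : ℝ) (((({0, 2} : Finset ℕ).card : ℝ)) ^ 2 / ((3 : ℕ) : ℝ)) = 4 / 3 := by
    have : (({0, 2} : Finset ℕ).card : ℝ) = 2 := by norm_num
    rw [this]
    norm_num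
  rw [e] at h1
  have e2 : (((3 : ℕ) : ℝ)) ^ (ε * n) = (3 : ℝ) ^ (ε * n) := by norm_num
  rw [e2] at h1
  refine le_trans ?_ h1
  have e3 : Cd 3 {0, 2} n = CF n := C_eq_CF n
  rw [e3]
  unfold lineCount
  refine le_of_eq ?_
  congr

/-- **Upper half of the theorem** from the upper growth theorem. -/
theorem dimH_E_le_of (h : UpperGrowth) : dimH E ≤ ENNReal.ofReal s0 :=
  dimH_E_le fun _ ht hirr => flat_of_upperGrowth h ht hirr

lemma Xset_bounded {ρ : ℝ} (hρ : 0 < ρ) (S : Finset ℤ) : ∃ M : ℝ, ∀ b ∈ Xset ρ S, |b| ≤ M := by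
  obtain ⟨N, hN⟩ : ∃ N : ℕ, ∀ k ∈ S, |k| ≤ N := by
    refine ⟨S.sup fun k => k.natAbs, fun k hk => ?_⟩
    have := Finset.le_sup (f := fun k : ℤ => k.natAbs) hk
    rw [Int.abs_eq_natAbs]
    exact_mod_cast this
  refine ⟨((N : ℝ) + 2) * ρ, fun b hb => ?_⟩
  have hb' : |⌊b / ρ⌋| ≤ (N : ℤ) + 1 := by
    rcases hb with h | h | h
    · have := hN _ h; omega
    · have := hN _ h; rw [abs_le] at this ⊢; omega
    · have := hN _ h; rw [abs_le] at this ⊢; omega
  have h1 := Int.floor_le (b / ρ)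
  have h2 := Int.lt_floor_add_one (b / ρ)
  have h3 : |((⌊b / ρ⌋ : ℤ) : ℝ)| ≤ (N : ℝ) + 1 := by exact_mod_cast hb'
  rw [abs_le] at h3
  have h4 : |b / ρ| ≤ (N : ℝ) + 2 := by
    rw [abs_le]; constructor <;> linarith [h3.1, h3.2]
  rw [abs_div, abs_of_pos hρ, div_le_iff₀ hρ] at h4
  exact h4

/-- **Lower bound near a point** of the intersection at which the growth is robust. -/
theorem local_lower {q : ℕ} {p0 : ℝ × ℝ} (hc : p0.1 ^ 2 + p0.2 ^ 2 = 1) (hx : 0 < p0.1)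
    (hy : 0 < p0.2) {ρ : ℝ} (hρ : 0 < ρ) {S : Finset ℤ}
    (hRG : RobustGrowth (3 ^ q * (p0.1 / p0.2)) ρ S)
    (hnodes : ∀ N : ℕ, ∃ n a b : ℕ, N ≤ n ∧ CN n a ∧ CN (n + q) b ∧ nu q n a b ∈ Xset ρ S ∧
      (a : ℝ) / 3 ^ n ≤ p0.1 ∧ p0.1 ≤ ((a : ℝ) + 1) / 3 ^ n) :
    ENNReal.ofReal s0 ≤ dimH E := by
  set u : ℝ := 3 ^ q * (p0.1 / p0.2) with hu
  have hx1 : p0.1 < 1 := by nlinarith
  have hl3 : 0 < Real.log 3 := Real.log_pos (by norm_num)
  -- it is enough to get `s0 - ε`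
  have key : ∀ ε : ℝ, 0 < ε → ENNReal.ofReal (s0 - ε) ≤ dimH E := by
    intro ε hε
    rcases le_or_gt (s0 - ε) 0 with hneg | hpos
    · rw [ENNReal.ofReal_of_nonpos hneg]; exact bot_le
    obtain ⟨m, hm⟩ : ∃ m : ℕ, 1 ≤ (m : ℝ) * (s0 - ε) ∧ 0 < m := by
      obtain ⟨m, hm⟩ := exists_nat_gt (1 / (s0 - ε))
      refine ⟨m, ?_, ?_⟩
      · rw [div_lt_iff₀ hpos] at hm
        exact hm.le
      · have : (0 : ℝ) < m := lt_trans (by positivity) hm
        exact_mod_cast this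
    obtain ⟨k, hmk, hk⟩ := hRG ε hε m
    have hk0 : 0 < k := lt_of_lt_of_le hm.2 hmk
    have h3k : (0 : ℝ) < 3 ^ k := by positivity
    have h3q : (0 : ℝ) < 3 ^ q := by positivity
    set L : ℝ := (3 : ℝ) ^ ((k : ℝ) * (s0 - ε)) with hL
    have hL3 : 3 ≤ L := by
      have h1 : (1 : ℝ) ≤ (k : ℝ) * (s0 - ε) := by
        refine hm.1.trans (mul_le_mul_of_nonneg_right ?_ hpos.le)
        exact_mod_cast hmk
      calc (3 : ℝ) = (3 : ℝ) ^ (1 : ℝ) := (Real.rpow_one 3).symm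
        _ ≤ L := Real.rpow_le_rpow_of_exponent_le (by norm_num) h1
    set M : ℕ := ⌈L⌉₊ with hM
    have hML : L ≤ M := Nat.le_ceil L
    have hM2 : 2 ≤ M := by
      have : (2 : ℝ) ≤ M := by linarith
      exact_mod_cast this
    obtain ⟨X0, X1, t0, t1, hX0, hX0', hX1', hX1, ht0, ht1, hlo, hhi, e0, e1⟩ :=
      exists_window hx hx1 (δ := ρ / (3 ^ k * 3 ^ q)) (by positivity)
    rw [← eq_g hc hy.le] at e0 e1
    -- the starting rectangle
    obtain ⟨r, hr, hr0, hr1⟩ : ∃ r : ℝ, 0 < r ∧ X0 + r ≤ p0.1 ∧ p0.1 + r ≤ X1 := by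
      refine ⟨min (p0.1 - X0) (X1 - p0.1), lt_min (by linarith) (by linarith), ?_, ?_⟩
      · have := min_le_left (p0.1 - X0) (X1 - p0.1); linarith
      · have := min_le_right (p0.1 - X0) (X1 - p0.1); linarith
    obtain ⟨N, hN⟩ := exists_pow_lt_of_lt_one hr (by norm_num : (1 / 3 : ℝ) < 1)
    obtain ⟨n0, a0, b0, hn0, ha0, hb0, hX, l0, u0⟩ := hnodes N
    have hn1 : 1 / 3 ^ n0 < r := by
      have h1 : (1 / 3 : ℝ) ^ n0 ≤ (1 / 3 : ℝ) ^ N :=
        pow_le_pow_of_le_one (by norm_num) (by norm_num) hn0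
      have h2 : (1 / 3 : ℝ) ^ n0 = 1 / 3 ^ n0 := by rw [one_div, inv_pow, ← one_div]
      rw [← h2]
      exact h1.trans_lt hN
    obtain ⟨B0, hB0⟩ := Xset_bounded hρ S
    have hfin := tree_dimH (q := q) (k := k) (M := M) (n0 := n0) (a0 := a0) (b0 := b0) (C := B0)
      (fun n a b => X0 ≤ (a : ℝ) / 3 ^ n ∧ ((a : ℝ) + 1) / 3 ^ n ≤ X1 ∧ nu q n a b ∈ Xset ρ S)
      hk0 hM2 ha0 hb0 ?_ ?_ ?_
    · refine le_trans (ENNReal.ofReal_le_ofReal ?_) hfin
      have hkr : (0 : ℝ) < k := by exact_mod_cast hk0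
      rw [le_div_iff₀ (by positivity)]
      have h1 : Real.log L = (k : ℝ) * (s0 - ε) * Real.log 3 := by
        rw [hL, Real.log_rpow (by norm_num)]
      have h2 : Real.log L ≤ Real.log M := Real.log_le_log (by linarith) hML
      calc (s0 - ε) * ((k : ℝ) * Real.log 3) = Real.log L := by rw [h1]; ring
        _ ≤ Real.log M := h2
    · have e : ((a0 : ℝ) + 1) / 3 ^ n0 = (a0 : ℝ) / 3 ^ n0 + 1 / 3 ^ n0 := by rw [add_div]
      refine ⟨by linarith, by linarith, hX⟩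
    · rintro n a b ⟨ha, ha', hab⟩
      classical
      refine ⟨(C k ×ˢ C k).filter
        (fun p : ℕ × ℕ => (3 : ℝ) ^ k * nu q n a b - p.2 - u * p.1 ∈ Gset ρ S), ?_, ?_⟩
      · have h1 := hk _ hab
        unfold cnt at h1
        have h2 : L ≤ (((C k ×ˢ C k).filter
          (fun p : ℕ × ℕ => (3 : ℝ) ^ k * nu q n a b - p.2 - u * p.1 ∈ Gset ρ S)).card : ℝ) := by
          refine h1.trans (le_of_eq ?_)
          congr
        exact Nat.ceil_le.mpr h2
      · intro p hp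
        rw [Finset.mem_filter, Finset.mem_product, mem_C, mem_C] at hp
        obtain ⟨⟨hp1, hp2⟩, hpG⟩ := hp
        have hlt := hp1.lt
        have hlt' : (p.1 : ℝ) + 1 ≤ 3 ^ k := by exact_mod_cast hlt
        have hp0 : (0 : ℝ) ≤ (p.1 : ℝ) := by positivity
        have h3n : (0 : ℝ) < 3 ^ n := by positivity
        obtain ⟨d0, d1⟩ := nu_desc (q := q) (b := b) (B := p.2) hX0.le hX1 ht1.le hlo hhi ha ha' hlt
        refine ⟨hp1, hp2, ?_, ?_, ?_⟩
        · refine ha.trans ?_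
          rw [pow_add, div_le_div_iff₀ h3n (by positivity)]
          push_cast
          nlinarith
        · refine le_trans ?_ ha'
          rw [pow_add, div_le_div_iff₀ (by positivity) h3n]
          push_cast
          nlinarith
        · refine mem_Xset_of_near hρ hpG ?_
          have c0 : (p.1 : ℝ) * (u - 3 ^ q * t0) ≤ ρ := by
            have h1 : u - 3 ^ q * t0 ≤ ρ / 3 ^ k := by
              have : p0.1 / p0.2 - t0 ≤ ρ / (3 ^ k * 3 ^ q) := by linarith
              calc u - 3 ^ q * t0 = 3 ^ q * (p0.1 / p0.2 - t0) := by rw [hu]; ring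
                _ ≤ 3 ^ q * (ρ / (3 ^ k * 3 ^ q)) := mul_le_mul_of_nonneg_left this h3q.le
                _ = ρ / 3 ^ k := by field_simp
            by_cases hs : u - 3 ^ q * t0 ≤ 0
            · nlinarith
            · push Not at hs
              calc (p.1 : ℝ) * (u - 3 ^ q * t0) ≤ 3 ^ k * (ρ / 3 ^ k) :=
                    mul_le_mul (by linarith) h1 hs.le h3k.le
                _ = ρ := by field_simp
          have c1 : (p.1 : ℝ) * (3 ^ q * t1 - u) ≤ ρ := by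
            have h1 : 3 ^ q * t1 - u ≤ ρ / 3 ^ k := by
              have : t1 - p0.1 / p0.2 ≤ ρ / (3 ^ k * 3 ^ q) := by linarith
              calc 3 ^ q * t1 - u = 3 ^ q * (t1 - p0.1 / p0.2) := by rw [hu]; ring
                _ ≤ 3 ^ q * (ρ / (3 ^ k * 3 ^ q)) := mul_le_mul_of_nonneg_left this h3q.le
                _ = ρ / 3 ^ k := by field_simp
            by_cases hs : 3 ^ q * t1 - u ≤ 0
            · nlinarith
            · push Not at hs
              calc (p.1 : ℝ) * (3 ^ q * t1 - u) ≤ 3 ^ k * (ρ / 3 ^ k) :=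
                    mul_le_mul (by linarith) h1 hs.le h3k.le
                _ = ρ := by field_simp
          rw [abs_le]
          constructor <;> nlinarith
    · intro n a b h
      exact hB0 _ h.2.2
  rcases le_or_gt s0 0 with hs | hs
  · rw [ENNReal.ofReal_of_nonpos hs]; exact bot_le
  refine le_of_forall_lt fun c hcl => ?_
  have hctop : c ≠ ⊤ := (hcl.trans_le le_top).ne
  have h1 : c.toReal < s0 := (ENNReal.lt_ofReal_iff_toReal_lt hctop).mp hcl
  have h2 := key ((s0 - c.toReal) / 2) (by linarith)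
  refine lt_of_lt_of_le ?_ h2
  rw [ENNReal.lt_ofReal_iff_toReal_lt hctop]
  linarith

end H60CD
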