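import Pool.Agent.Lib.H60CD.Low

/-!
# MP_54f706, Q2: lower half of the geometry, choice of the point
-/

namespace H60CD

open Set MeasureTheory Real Topology Pool.Agent.Lib.H59Q

/-- The point of the circle with slope `u / 3 ^ q`. -/
noncomputable def pt (q : ℕ) (u : ℝ) : ℝ × ℝ :=
  ((u / 3 ^ q) / Real.sqrt (1 + (u / 3 ^ q) ^ 2), 1 / Real.sqrt (1 + (u / 3 ^ q) ^ 2))

lemma sqrt_ge_one (t : ℝ) : 1 ≤ Real.sqrt (1 + t ^ 2) := by
  rw [Real.one_le_sqrt]
  nlinarith [sq_nonneg t]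

lemma abs_le_sqrt (t : ℝ) : |t| ≤ Real.sqrt (1 + t ^ 2) :=
  Real.abs_le_sqrt (by linarith)

lemma sqrt_sub (s t : ℝ) :
    |Real.sqrt (1 + s ^ 2) - Real.sqrt (1 + t ^ 2)| ≤ |s - t| := by
  have hs := sqrt_ge_one s
  have ht := sqrt_ge_one t
  have h1 := Real.sq_sqrt (show (0 : ℝ) ≤ 1 + s ^ 2 by positivity)
  have h2 := Real.sq_sqrt (show (0 : ℝ) ≤ 1 + t ^ 2 by positivity)
  have h3 := abs_le_sqrt s
  have h4 := abs_le_sqrt t
  set A := Real.sqrt (1 + s ^ 2)
  set B := Real.sqrt (1 + t ^ 2)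
  have hpos : 0 < A + B := by linarith
  have h5 : |A - B| * (A + B) = |s - t| * |s + t| := by
    rw [← abs_of_pos hpos, ← abs_mul, ← abs_mul]
    congr 1
    nlinarith
  have h6 : |s + t| ≤ A + B := (abs_add_le s t).trans (by linarith)
  have h7 : |A - B| * (A + B) ≤ |s - t| * (A + B) := by
    rw [h5]
    exact mul_le_mul_of_nonneg_left h6 (abs_nonneg _)
  exact le_of_mul_le_mul_right h7 hpos

lemma pt_lipschitz (q : ℕ) : LipschitzWith 2 (pt q) := by
  refine LipschitzWith.of_dist_le_mul fun u v => ?_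
  set s := u / 3 ^ q with hs
  set t := v / 3 ^ q with ht
  have h3 : (1 : ℝ) ≤ 3 ^ q := one_le_pow₀ (by norm_num)
  have hst : |s - t| ≤ |u - v| := by
    rw [hs, ht, ← sub_div, abs_div, abs_of_pos (by positivity : (0 : ℝ) < 3 ^ q)]
    exact div_le_self (abs_nonneg _) h3
  have a1 := sqrt_ge_one s
  have a2 := sqrt_ge_one t
  have a3 := abs_le_sqrt s
  have a4 := abs_le_sqrt t
  have a5 := sqrt_sub s t
  have e1 : pt q u = (s / Real.sqrt (1 + s ^ 2), 1 / Real.sqrt (1 + s ^ 2)) := rfl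
  have e2 : pt q v = (t / Real.sqrt (1 + t ^ 2), 1 / Real.sqrt (1 + t ^ 2)) := rfl
  rw [e1, e2, Prod.dist_eq, Real.dist_eq, Real.dist_eq, Real.dist_eq]
  set A := Real.sqrt (1 + s ^ 2)
  set B := Real.sqrt (1 + t ^ 2)
  have hA : 0 < A := by linarith
  have hB : 0 < B := by linarith
  refine max_le ?_ ?_
  · have e : s / A - t / B = (s - t) / A + t / B * ((B - A) / A) := by
      field_simp
      ring
    have b1 : |(s - t) / A| ≤ |s - t| := by
      rw [abs_div, abs_of_pos hA]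
      exact div_le_self (abs_nonneg _) a1
    have b2 : |t / B| ≤ 1 := by
      rw [abs_div, abs_of_pos hB, div_le_one hB]
      exact a4
    have b3 : |(B - A) / A| ≤ |s - t| := by
      rw [abs_div, abs_of_pos hA]
      refine (div_le_self (abs_nonneg _) a1).trans ?_
      rw [abs_sub_comm]
      exact a5
    show |s / A - t / B| ≤ ((2 : NNReal) : ℝ) * |u - v|
    rw [e]
    refine (abs_add_le _ _).trans ?_
    rw [abs_mul]
    have : |t / B| * |(B - A) / A| ≤ 1 * |s - t| :=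
      mul_le_mul b2 b3 (abs_nonneg _) (by norm_num)
    push_cast
    linarith
  · have e : 1 / A - 1 / B = (B - A) / A / B := by
      field_simp
    have b3 : |(B - A) / A / B| ≤ |s - t| := by
      rw [abs_div, abs_div, abs_of_pos hA, abs_of_pos hB]
      refine (div_le_self (by positivity) a2).trans ((div_le_self (abs_nonneg _) a1).trans ?_)
      rw [abs_sub_comm]
      exact a5
    show |1 / A - 1 / B| ≤ ((2 : NNReal) : ℝ) * |u - v|
    rw [e]
    push_cast
    linarith [abs_nonneg (u - v)]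

lemma pt_slope {q : ℕ} {x y : ℝ} (hc : x ^ 2 + y ^ 2 = 1) (hy : 0 < y) :
    pt q (3 ^ q * (x / y)) = (x, y) := by
  have e0 : 3 ^ q * (x / y) / 3 ^ q = x / y := by field_simp
  unfold pt
  rw [e0]
  have e : 1 + (x / y) ^ 2 = (1 / y) ^ 2 := by
    field_simp
    linarith
  rw [e, Real.sqrt_sq (by positivity)]
  ext
  · simp only; field_simp
  · simp only; field_simp

/-- **Lower half of the theorem**: if the growth is robust for all slopes of a range outside a set
of dimension `0`, and a tree of rectangles with positions in `Xset ρ S` and slopes in the range has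
a limit set of positive dimension, then the dimension is at least `s0`. -/
theorem le_dimH_E {q k n0 : ℕ} {u₁ u₂ ρ : ℝ} {S : Finset ℤ} (hρ : 0 < ρ) (hk : 0 < k)
    (hslopes : dimH {u : ℝ | u ∈ Icc u₁ u₂ ∧ ¬ RobustGrowth u ρ S} = 0)
    (Good : ℕ → ℕ → ℕ → Prop) (hGood : ∀ n a b, Good n a b → nu q n a b ∈ Xset ρ S)
    (hrange : ∀ p ∈ Lim q k n0 Good, 0 < p.1 ∧ 0 < p.2 ∧ 3 ^ q * (p.1 / p.2) ∈ Icc u₁ u₂)
    (hdim : 0 < dimH (Lim q k n0 Good)) : ENNReal.ofReal s0 ≤ dimH E := by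
  obtain ⟨p, hp, hRG⟩ : ∃ p ∈ Lim q k n0 Good, RobustGrowth (3 ^ q * (p.1 / p.2)) ρ S := by
    by_contra hcon
    push Not at hcon
    have hsub : Lim q k n0 Good ⊆
        pt q '' {u : ℝ | u ∈ Icc u₁ u₂ ∧ ¬ RobustGrowth u ρ S} := by
      intro p hp
      obtain ⟨h1, h2, h3⟩ := hrange p hp
      refine ⟨3 ^ q * (p.1 / p.2), ⟨h3, hcon p hp⟩, ?_⟩
      exact pt_slope hp.1.1 h2
    have h1 := (pt_lipschitz q).dimH_image_le {u : ℝ | u ∈ Icc u₁ u₂ ∧ ¬ RobustGrowth u ρ S}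
    have h2 := (dimH_mono hsub).trans (h1.trans_eq hslopes)
    exact absurd (hdim.trans_le h2) (lt_irrefl _)
  obtain ⟨hx, hy, -⟩ := hrange p hp
  refine local_lower hp.1.1 hx hy hρ hRG fun N => ?_
  obtain ⟨a, b, hG, ha, hb, l1, u1, -, -⟩ := hp.2 N
  refine ⟨n0 + N * k, a, b, ?_, ha, hb, hGood _ _ _ hG, l1, u1⟩
  calc N ≤ N * k := Nat.le_mul_of_pos_right _ hk
    _ ≤ n0 + N * k := Nat.le_add_left _ _

end H60CD
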