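import Pool.Agent.Lib.H60CD.Cert
import Pool.Agent.Lib.H60CD.CE1

/-!
# MP_54f706, Q2: assembly of the sharp theorem
-/

namespace H60CD

open Set MeasureTheory Real Topology Pool.Agent.Lib.H59Q

/-- The root rectangle of a certificate, in natural numbers. -/
structure Root (q R U1 U2 D n0 a0 b0 c0 : ℕ) : Prop where
  ha0 : CN n0 a0
  hb0 : CN (n0 + q) b0
  hR : 0 < R
  hD : 0 < D
  hpos : 0 < a0
  hlt : a0 + 1 < 3 ^ n0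
  lo : U1 ^ 2 * (9 ^ n0 - a0 ^ 2) ≤ D ^ 2 * 9 ^ q * a0 ^ 2
  hi : D ^ 2 * 9 ^ q * (a0 + 1) ^ 2 ≤ U2 ^ 2 * (9 ^ n0 - (a0 + 1) ^ 2)
  cell1 : (R * b0 + c0) ^ 2 + R ^ 2 * 9 ^ q * a0 ^ 2 ≤ R ^ 2 * 9 ^ (n0 + q)
  cell2 : R ^ 2 * 9 ^ (n0 + q) < (R * b0 + c0 + 1) ^ 2 + R ^ 2 * 9 ^ q * a0 ^ 2

/-- **Lower half**, from the interface `RobustSlopes`, a certificate and its root. -/
theorem lower_of (hR : RobustSlopes) {K q R U1 U2 D n0 a0 b0 c0 : ℕ} {σ lam : ℝ} {v : ℤ → ℕ}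
    (hc : CurveCert K ((U1 : ℝ) / D) ((U2 : ℝ) / D) (1 / R) σ lam v)
    (hr : Root q R U1 U2 D n0 a0 b0 c0) (hv : 1 ≤ v c0) : ENNReal.ofReal s0 ≤ dimH E := by
  obtain ⟨M, S, c, hM, hc0, hS, hgrow⟩ := growth_of_cert hc.robust
  have hMr : (0 : ℝ) < M := by exact_mod_cast hM
  have hρ := hc.ρ_pos
  have hslopes := hR K ((U1 : ℝ) / D) ((U2 : ℝ) / D) (1 / R / M) c lam S hc.K_pos hc.hu₁ hc.hu₂
    (by positivity) hc0 hc.one_lt hgrow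
  have hw : Window q ((U1 : ℝ) / D) ((U2 : ℝ) / D) ((a0 : ℝ) / 3 ^ n0) (((a0 : ℝ) + 1) / 3 ^ n0) :=
    window_of hr.hD hr.hpos hr.hlt hr.lo hr.hi
  have hroot : GoodV q (1 / R) ((a0 : ℝ) / 3 ^ n0) (((a0 : ℝ) + 1) / 3 ^ n0) v n0 a0 b0 := by
    refine ⟨le_rfl, le_rfl, ?_⟩
    rw [floor_nu hr.hR hr.cell1 hr.cell2]
    exact hv
  obtain ⟨k, hk, hdim⟩ := exists_lim hc hw hr.ha0 hr.hb0 hroot
  have hu₁ : 0 < (U1 : ℝ) / D := lt_of_lt_of_le (by norm_num) hc.hu₁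
  have hu₂ : 0 < (U2 : ℝ) / D := hu₁.trans hc.hu
  refine le_dimH_E (q := q) (k := k) (n0 := n0) (u₁ := (U1 : ℝ) / D) (u₂ := (U2 : ℝ) / D)
    (ρ := 1 / R / M) (S := S) (by positivity) hk hslopes
    (GoodV q (1 / R) ((a0 : ℝ) / 3 ^ n0) (((a0 : ℝ) + 1) / 3 ^ n0) v) ?_
    (lim_range hu₁ hu₂ hw) hdim
  rintro n a b ⟨-, -, hab⟩
  left
  rw [hS, floor_refine hM]
  exact hab

/-- **The sharp theorem** from the growth theorems, a certificate and its root. -/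
theorem main_of (hU : UpperGrowth) (hL : LowerGrowth) (hT : TypicalSlopes)
    {K q R U1 U2 D n0 a0 b0 c0 : ℕ} {σ lam : ℝ} {v : ℤ → ℕ}
    (hc : CurveCert K ((U1 : ℝ) / D) ((U2 : ℝ) / D) (1 / R) σ lam v)
    (hr : Root q R U1 U2 D n0 a0 b0 c0) (hv : 1 ≤ v c0) :
    dimH E = ENNReal.ofReal (2 * Real.log 2 / Real.log 3 - 1) :=
  le_antisymm (dimH_E_le_of hU) (lower_of (robustSlopes_of hL hT) hc hr hv)

end H60CD
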