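import Mathlib
import Pool.Agent.Lib.H60CD.Defs

/-!
# A tree of basic rectangles of bounded step gives a lower bound for the Hausdorff dimension
-/

namespace H60CD

open Set Filter Topology

/-! ### Codings by sequences of digits -/

/-- A coding by `M`-ary sequences whose points are `c * ρ ^ j` apart when the sequences differ for
the first time at `j` has an image of dimension at least `log M / log (1 / ρ)`. -/
theorem dimH_range_ge {X : Type*} [MetricSpace X] {M : ℕ} (hM : 2 ≤ M)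
    {p : (ℕ → Fin M) → X} {c ρ : ℝ} (hc : 0 < c) (hρ : 0 < ρ) (hρ1 : ρ < 1)
    (h : ∀ (ω ω' : ℕ → Fin M) (j : ℕ), (∀ i < j, ω i = ω' i) → ω j ≠ ω' j →
      c * ρ ^ j ≤ dist (p ω) (p ω')) :
    ENNReal.ofReal (Real.log M / Real.log ρ⁻¹) ≤ dimH (range p) := by
  classical
  have hM1 : (1 : ℝ) < M := by exact_mod_cast (by omega : 1 < M)
  have hM0 : (0 : ℝ) < M := by linarith
  have hlM : 0 < Real.log M := Real.log_pos hM1
  have hlρ : 0 < Real.log ρ⁻¹ := Real.log_pos ((one_lt_inv₀ hρ).2 hρ1)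
  set r : ℝ := Real.log M / Real.log ρ⁻¹ with hr
  have hr0 : 0 < r := div_pos hlM hlρ
  -- `ρ ^ r = 1 / M`
  have hρr : ρ ^ r = (M : ℝ)⁻¹ := by
    rw [Real.rpow_def_of_pos hρ, hr]
    have e : Real.log ρ * (Real.log M / Real.log ρ⁻¹) = - Real.log M := by
      have h0 : Real.log ρ = - Real.log ρ⁻¹ := by rw [Real.log_inv]; ring
      have h1 : Real.log ρ⁻¹ ≠ 0 := hlρ.ne'
      rw [h0, neg_mul, mul_div_cancel₀ _ h1]
    rw [e, Real.exp_neg, Real.exp_log hM0]
  -- first difference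
  have key : ∀ ω ω' : ℕ → Fin M, ω ≠ ω' →
      |Real.ofDigits ω - Real.ofDigits ω'| ≤ c⁻¹ ^ r * dist (p ω) (p ω') ^ r := by
    intro ω ω' hne
    have hex : ∃ j, ω j ≠ ω' j := Function.ne_iff.1 hne
    set j := Nat.find hex with hj
    have h1 : ω j ≠ ω' j := Nat.find_spec hex
    have h2 : ∀ i < j, ω i = ω' i := fun i hi => by
      have := Nat.find_min hex hi
      simpa using this
    have h3 := h ω ω' j h2 h1
    have h4 := Real.abs_ofDigits_sub_ofDigits_le h2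
    have h5 : ρ ^ j ≤ c⁻¹ * dist (p ω) (p ω') := by
      have := mul_le_mul_of_nonneg_left h3 (inv_pos.2 hc).le
      rwa [← mul_assoc, inv_mul_cancel₀ hc.ne', one_mul] at this
    have h6 : (ρ ^ j) ^ r ≤ (c⁻¹ * dist (p ω) (p ω')) ^ r :=
      Real.rpow_le_rpow (by positivity) h5 hr0.le
    rw [Real.mul_rpow (inv_pos.2 hc).le dist_nonneg] at h6
    have h7 : (ρ ^ j) ^ r = ((M : ℝ) ^ j)⁻¹ := by
      rw [← Real.rpow_natCast, ← Real.rpow_mul hρ.le, mul_comm, Real.rpow_mul hρ.le, hρr,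
        Real.rpow_natCast, inv_pow]
    rw [h7] at h6
    exact h4.trans h6
  have hinj : Function.Injective p := by
    intro ω ω' he
    by_contra hne
    have hex : ∃ j, ω j ≠ ω' j := Function.ne_iff.1 hne
    have h1 := Nat.find_spec hex
    have h2 : ∀ i < Nat.find hex, ω i = ω' i := fun i hi => by
      have := Nat.find_min hex hi
      simpa using this
    have h3 := h ω ω' _ h2 h1
    rw [he, dist_self] at h3
    have : 0 < c * ρ ^ (Nat.find hex) := by positivity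
    linarith
  have : NeZero M := ⟨by omega⟩
  have : Nonempty (ℕ → Fin M) := ⟨fun _ => 0⟩
  set f : X → ℝ := fun z => Real.ofDigits (Function.invFun p z) with hf
  have hfp : ∀ ω, f (p ω) = Real.ofDigits ω := fun ω => by
    simp only [hf]
    rw [Function.leftInverse_invFun hinj ω]
  have hcr : 0 ≤ c⁻¹ ^ r := by positivity
  have hol : HolderOnWith (c⁻¹ ^ r).toNNReal r.toNNReal f (range p) := by
    rintro _ ⟨ω, rfl⟩ _ ⟨ω', rfl⟩
    rw [hfp, hfp]
    by_cases hne : ω = ω'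
    · subst hne
      simp
    · have h1 := key ω ω' hne
      rw [edist_dist, edist_dist, Real.dist_eq, Real.coe_toNNReal _ hr0.le,
        ENNReal.ofReal_rpow_of_nonneg dist_nonneg hr0.le]
      change _ ≤ ENNReal.ofReal (c⁻¹ ^ r) * _
      rw [← ENNReal.ofReal_mul hcr]
      exact ENNReal.ofReal_le_ofReal h1
  have h1 := hol.dimH_image_le (Real.toNNReal_pos.2 hr0)
  have himg : Icc (0 : ℝ) 1 ⊆ f '' range p := by
    intro y hy
    obtain ⟨ω, -, hω⟩ := Real.ofDigits_SurjOn (b := M) (by omega) hy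
    exact ⟨p ω, ⟨ω, rfl⟩, by rw [hfp, hω]⟩
  have h2 : (1 : ENNReal) ≤ dimH (f '' range p) := by
    have e : dimH (Icc (0 : ℝ) 1) = 1 := by
      rw [Real.dimH_of_nonempty_interior (s := Icc (0 : ℝ) 1) (by rw [interior_Icc]; simp)]
      simp
    rw [← e]
    exact dimH_mono himg
  have h3 : (1 : ENNReal) ≤ dimH (range p) / ENNReal.ofReal r := h2.trans h1
  have hr1 : ENNReal.ofReal r ≠ 0 := by simpa using hr0
  rw [ENNReal.le_div_iff_mul_le (Or.inl hr1) (Or.inl ENNReal.ofReal_ne_top), one_mul] at h3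
  exact h3

/-! ### Facts on `CN` -/

lemma CN.lt {n a : ℕ} (h : CN n a) : a < 3 ^ n := by
  induction h with
  | zero => simp
  | s0 _ ih => rw [pow_succ]; omega
  | s2 _ ih => rw [pow_succ]; omega

lemma CN.even {n a : ℕ} (h : CN n a) : ∃ c, a = 2 * c := by
  induction h with
  | zero => exact ⟨0, rfl⟩
  | s0 _ ih => obtain ⟨c, rfl⟩ := ih; exact ⟨3 * c, by ring⟩
  | s2 _ ih => obtain ⟨c, rfl⟩ := ih; exact ⟨3 * c + 1, by ring⟩

lemma CN.append {n k a s : ℕ} (ha : CN n a) (hs : CN k s) : CN (n + k) (3 ^ k * a + s) := by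
  induction hs with
  | zero => simpa using ha
  | @s0 k s _ ih =>
    have := CN.s0 ih
    have e : 3 ^ (k + 1) * a + 3 * s = 3 * (3 ^ k * a + s) := by ring
    rw [e]
    exact this
  | @s2 k s _ ih =>
    have := CN.s2 ih
    have e : 3 ^ (k + 1) * a + (3 * s + 2) = 3 * (3 ^ k * a + s) + 2 := by ring
    rw [e]
    exact this

lemma cantor_third {x : ℝ} (hx : x ∈ cantorSet) : x / 3 ∈ cantorSet := by
  rw [cantorSet_eq_union_halves]
  exact Or.inl ⟨x, hx, rfl⟩

lemma cantor_two_third {x : ℝ} (hx : x ∈ cantorSet) : (2 + x) / 3 ∈ cantorSet := by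
  rw [cantorSet_eq_union_halves]
  exact Or.inr ⟨x, hx, rfl⟩

lemma CN.add_mem {n a : ℕ} (h : CN n a) : ∀ {x : ℝ}, x ∈ cantorSet →
    ((a : ℝ) + x) / 3 ^ n ∈ cantorSet := by
  induction h with
  | zero => intro x hx; simpa using hx
  | @s0 n a _ ih =>
    intro x hx
    have := ih (cantor_third hx)
    have e : (((3 * a : ℕ) : ℝ) + x) / 3 ^ (n + 1) = ((a : ℝ) + x / 3) / 3 ^ n := by
      rw [pow_succ]; push_cast; field_simp
    rw [e]; exact this
  | @s2 n a _ ih =>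
    intro x hx
    have := ih (cantor_two_third hx)
    have e : (((3 * a + 2 : ℕ) : ℝ) + x) / 3 ^ (n + 1) = ((a : ℝ) + (2 + x) / 3) / 3 ^ n := by
      rw [pow_succ]; push_cast; field_simp; ring
    rw [e]; exact this

lemma CN.mem {n a : ℕ} (h : CN n a) : (a : ℝ) / 3 ^ n ∈ cantorSet := by
  have := h.add_mem zero_mem_cantorSet
  simpa using this

/-- Different numbers of level `n` differ by at least `2`. -/
lemma CN.sep {n a b : ℕ} (ha : CN n a) (hb : CN n b) (hab : a ≠ b) : a + 2 ≤ b ∨ b + 2 ≤ a := by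
  obtain ⟨c, rfl⟩ := ha.even
  obtain ⟨d, rfl⟩ := hb.even
  omega

/-! ### Trees of rectangles -/

/-- The points of the circle all of whose ancestors of levels `n0 + j * k` are good. -/
def Lim (q k n0 : ℕ) (Good : ℕ → ℕ → ℕ → Prop) : Set (ℝ × ℝ) :=
  {p | p ∈ E ∧ ∀ j : ℕ, ∃ a b : ℕ, Good (n0 + j * k) a b ∧ CN (n0 + j * k) a ∧
    CN (n0 + j * k + q) b ∧ (a : ℝ) / 3 ^ (n0 + j * k) ≤ p.1 ∧
    p.1 ≤ ((a : ℝ) + 1) / 3 ^ (n0 + j * k) ∧ (b : ℝ) / 3 ^ (n0 + j * k + q) ≤ p.2 ∧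
    p.2 ≤ ((b : ℝ) + 1) / 3 ^ (n0 + j * k + q)}

lemma Lim_subset {q k n0 : ℕ} {Good : ℕ → ℕ → ℕ → Prop} : Lim q k n0 Good ⊆ E := fun _ h => h.1

/-- The limit of a nested sequence of basic intervals. -/
lemma exists_limit {k n0 m : ℕ} {A : ℕ → ℕ} (hCN : ∀ j, CN (n0 + j * k + m) (A j))
    (hA : ∀ j, ∃ s, CN k s ∧ A (j + 1) = 3 ^ k * A j + s) :
    ∃ x : ℝ, x ∈ cantorSet ∧ Tendsto (fun j => (A j : ℝ) / 3 ^ (n0 + j * k + m)) atTop (𝓝 x) ∧
      ∀ j, (A j : ℝ) / 3 ^ (n0 + j * k + m) ≤ x ∧ x ≤ ((A j : ℝ) + 1) / 3 ^ (n0 + j * k + m) := by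
  set u : ℕ → ℝ := fun j => (A j : ℝ) / 3 ^ (n0 + j * k + m) with hu
  set v : ℕ → ℝ := fun j => ((A j : ℝ) + 1) / 3 ^ (n0 + j * k + m) with hv
  have hpow : ∀ j, (3 : ℝ) ^ (n0 + (j + 1) * k + m) = 3 ^ (n0 + j * k + m) * 3 ^ k := by
    intro j
    rw [← pow_add]
    congr 1
    ring
  have hu1 : ∀ j, u j ≤ u (j + 1) := by
    intro j
    obtain ⟨s, hs, he⟩ := hA j
    simp only [hu]
    rw [he, hpow, div_le_div_iff₀ (by positivity) (by positivity)]
    push_cast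
    have : (0 : ℝ) ≤ s := by positivity
    have h3 : (0 : ℝ) < 3 ^ (n0 + j * k + m) := by positivity
    nlinarith [mul_nonneg this h3.le]
  have hv1 : ∀ j, v (j + 1) ≤ v j := by
    intro j
    obtain ⟨s, hs, he⟩ := hA j
    simp only [hv]
    rw [he, hpow, div_le_div_iff₀ (by positivity) (by positivity)]
    push_cast
    have h1 : (s : ℝ) + 1 ≤ 3 ^ k := by exact_mod_cast hs.lt
    have h3 : (0 : ℝ) < 3 ^ (n0 + j * k + m) := by positivity
    nlinarith [mul_le_mul_of_nonneg_left h1 h3.le]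
  have huM : Monotone u := monotone_nat_of_le_succ hu1
  have hvM : Antitone v := antitone_nat_of_succ_le hv1
  have huv : ∀ j, u j ≤ v j := fun j => by
    simp only [hu, hv]
    gcongr
    linarith
  have huv' : ∀ i j, u i ≤ v j := fun i j =>
    (huM (le_max_left i j)).trans ((huv _).trans (hvM (le_max_right i j)))
  have hbdd : BddAbove (range u) := ⟨v 0, by rintro _ ⟨i, rfl⟩; exact huv' i 0⟩
  refine ⟨⨆ i, u i, ?_, tendsto_atTop_ciSup huM hbdd, fun j => ⟨le_ciSup hbdd j,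
    ciSup_le fun i => huv' i j⟩⟩
  refine isClosed_cantorSet.mem_of_tendsto (tendsto_atTop_ciSup huM hbdd) ?_
  exact Eventually.of_forall fun j => (hCN j).mem

theorem continuous_g : Continuous g := by
  unfold g
  fun_prop

/-- **Tree lemma.** If every good rectangle of level `n` has at least `M` good descendants of level
`n + k` and good rectangles are close to the circle, then the points of the circle all of whose
ancestors are good form a set of dimension at least `log M / (k log 3)`. -/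
theorem tree_dimH_lim {q k M n0 a0 b0 : ℕ} {C : ℝ} (Good : ℕ → ℕ → ℕ → Prop) (hk : 0 < k)
    (hM : 2 ≤ M) (ha0 : CN n0 a0) (hb0 : CN (n0 + q) b0) (h0 : Good n0 a0 b0)
    (hstep : ∀ n a b, Good n a b → ∃ S : Finset (ℕ × ℕ), M ≤ S.card ∧ ∀ p ∈ S,
      CN k p.1 ∧ CN k p.2 ∧ Good (n + k) (3 ^ k * a + p.1) (3 ^ k * b + p.2))
    (hC : ∀ n a b, Good n a b → |nu q n a b| ≤ C) :
    ENNReal.ofReal (Real.log M / (k * Real.log 3)) ≤ dimH (Lim q k n0 Good) := by
  classical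
  -- the children
  have hch : ∀ (n a b : ℕ), ∃ c : Fin M → ℕ × ℕ, Good n a b → Function.Injective c ∧
      ∀ i, CN k (c i).1 ∧ CN k (c i).2 ∧
        Good (n + k) (3 ^ k * a + (c i).1) (3 ^ k * b + (c i).2) := by
    intro n a b
    by_cases hg : Good n a b
    · obtain ⟨S, hS, hp⟩ := hstep n a b hg
      have hcard : Fintype.card (Fin M) ≤ Fintype.card S := by simpa using hS
      obtain ⟨e⟩ := Function.Embedding.nonempty_of_card_le hcard
      exact ⟨fun i => (e i : ℕ × ℕ), fun _ =>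
        ⟨fun i j hij => e.injective (Subtype.ext hij), fun i => hp _ (e i).2⟩⟩
    · exact ⟨fun _ => (0, 0), fun h => absurd h hg⟩
  choose c hc using hch
  set P : (ℕ → Fin M) → ℕ → ℕ × ℕ := fun ω j => Nat.rec (a0, b0)
    (fun j p => (3 ^ k * p.1 + (c (n0 + j * k) p.1 p.2 (ω j)).1,
      3 ^ k * p.2 + (c (n0 + j * k) p.1 p.2 (ω j)).2)) j with hP
  have P0 : ∀ ω, P ω 0 = (a0, b0) := fun ω => rfl
  have Ps : ∀ ω j, P ω (j + 1) = (3 ^ k * (P ω j).1 + (c (n0 + j * k) (P ω j).1 (P ω j).2 (ω j)).1,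
      3 ^ k * (P ω j).2 + (c (n0 + j * k) (P ω j).1 (P ω j).2 (ω j)).2) := fun ω j => rfl
  have hlev : ∀ j, n0 + (j + 1) * k = n0 + j * k + k := fun j => by ring
  have hgood : ∀ ω j, Good (n0 + j * k) (P ω j).1 (P ω j).2 := by
    intro ω j
    induction j with
    | zero => simpa [P0] using h0
    | succ j ih =>
      rw [Ps, hlev]
      exact ((hc _ _ _ ih).2 (ω j)).2.2
  have hCN1 : ∀ ω j, CN (n0 + j * k) (P ω j).1 := by
    intro ω j
    induction j with
    | zero => simpa [P0] using ha0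
    | succ j ih =>
      rw [Ps, hlev]
      exact ih.append ((hc _ _ _ (hgood ω j)).2 (ω j)).1
  have hCN2 : ∀ ω j, CN (n0 + j * k + q) (P ω j).2 := by
    intro ω j
    induction j with
    | zero => simpa [P0] using hb0
    | succ j ih =>
      rw [Ps, show n0 + (j + 1) * k + q = n0 + j * k + q + k by ring]
      exact ih.append ((hc _ _ _ (hgood ω j)).2 (ω j)).2.1
  have hX : ∀ ω, ∃ x : ℝ, x ∈ cantorSet ∧
      Tendsto (fun j => ((P ω j).1 : ℝ) / 3 ^ (n0 + j * k + 0)) atTop (𝓝 x) ∧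
      ∀ j, ((P ω j).1 : ℝ) / 3 ^ (n0 + j * k + 0) ≤ x ∧
        x ≤ (((P ω j).1 : ℝ) + 1) / 3 ^ (n0 + j * k + 0) := fun ω =>
    exists_limit (m := 0) (fun j => by simpa using hCN1 ω j) fun j =>
      ⟨_, ((hc _ _ _ (hgood ω j)).2 (ω j)).1, by rw [Ps]⟩
  have hY : ∀ ω, ∃ x : ℝ, x ∈ cantorSet ∧
      Tendsto (fun j => ((P ω j).2 : ℝ) / 3 ^ (n0 + j * k + q)) atTop (𝓝 x) ∧
      ∀ j, ((P ω j).2 : ℝ) / 3 ^ (n0 + j * k + q) ≤ x ∧
        x ≤ (((P ω j).2 : ℝ) + 1) / 3 ^ (n0 + j * k + q) := fun ω =>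
    exists_limit (m := q) (fun j => by simpa using hCN2 ω j) fun j =>
      ⟨_, ((hc _ _ _ (hgood ω j)).2 (ω j)).2.1, by rw [Ps]⟩
  choose x hxC hxt hxb using hX
  choose y hyC hyt hyb using hY
  simp only [add_zero] at hxt hxb
  -- the limit points are on the circle
  have hgxy : ∀ ω, g (x ω) = y ω := by
    intro ω
    have h1 : Tendsto (fun j => g (((P ω j).1 : ℝ) / 3 ^ (n0 + j * k))) atTop (𝓝 (g (x ω))) :=
      (continuous_g.tendsto _).comp (hxt ω)
    have h2 : Tendsto (fun j => g (((P ω j).1 : ℝ) / 3 ^ (n0 + j * k)) -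
        ((P ω j).2 : ℝ) / 3 ^ (n0 + j * k + q)) atTop (𝓝 (g (x ω) - y ω)) := h1.sub (hyt ω)
    have h3 : Tendsto (fun j => g (((P ω j).1 : ℝ) / 3 ^ (n0 + j * k)) -
        ((P ω j).2 : ℝ) / 3 ^ (n0 + j * k + q)) atTop (𝓝 0) := by
      have hb : ∀ j, |g (((P ω j).1 : ℝ) / 3 ^ (n0 + j * k)) -
          ((P ω j).2 : ℝ) / 3 ^ (n0 + j * k + q)| ≤ C * ((1 : ℝ) / 3) ^ j := by
        intro j
        have h4 := hC _ _ _ (hgood ω j)
        have hpos : (0 : ℝ) < 3 ^ (n0 + j * k + q) := by positivity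
        have e : g (((P ω j).1 : ℝ) / 3 ^ (n0 + j * k)) -
          ((P ω j).2 : ℝ) / 3 ^ (n0 + j * k + q) =
            nu q (n0 + j * k) (P ω j).1 (P ω j).2 / 3 ^ (n0 + j * k + q) := by
          unfold nu
          field_simp
        rw [e, abs_div, abs_of_pos hpos, div_le_iff₀ hpos]
        have hC0 : 0 ≤ C := le_trans (abs_nonneg _) h4
        have hj : j ≤ n0 + j * k + q := by nlinarith
        have h5 : (3 : ℝ) ^ j ≤ 3 ^ (n0 + j * k + q) :=
          pow_le_pow_right₀ (by norm_num) hj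
        have h6 : (1 : ℝ) ≤ (1 / 3) ^ j * 3 ^ (n0 + j * k + q) := by
          rw [one_div, inv_pow]
          rw [← div_eq_inv_mul, one_le_div (by positivity)]
          exact h5
        calc |nu q (n0 + j * k) (P ω j).1 (P ω j).2| ≤ C * 1 := by linarith
          _ ≤ C * ((1 / 3) ^ j * 3 ^ (n0 + j * k + q)) := mul_le_mul_of_nonneg_left h6 hC0
          _ = C * (1 / 3) ^ j * 3 ^ (n0 + j * k + q) := by ring
      have h5 : Tendsto (fun j : ℕ => C * ((1 : ℝ) / 3) ^ j) atTop (𝓝 (C * 0)) :=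
        (tendsto_pow_atTop_nhds_zero_of_lt_one (by norm_num) (by norm_num)).const_mul C
      rw [mul_zero] at h5
      exact squeeze_zero_norm hb h5
    have := tendsto_nhds_unique h2 h3
    linarith
  have hE : ∀ ω, (x ω, y ω) ∈ E := by
    intro ω
    refine ⟨?_, hxC ω, hyC ω⟩
    have hx := cantorSet_subset_unitInterval (hxC ω)
    have h1 : 0 ≤ 1 - (x ω) ^ 2 := by nlinarith [hx.1, hx.2]
    have h2 := Real.sq_sqrt h1
    have h3 : Real.sqrt (1 - (x ω) ^ 2) = y ω := hgxy ω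
    simp only
    rw [← h3, h2]
    ring
  have hpre : ∀ ω ω' j, (∀ i < j, ω i = ω' i) → P ω j = P ω' j := by
    intro ω ω' j
    induction j with
    | zero => intro _; rw [P0, P0]
    | succ j ih =>
      intro h
      rw [Ps, Ps, ih fun i hi => h i (by omega), h j (by omega)]
  -- separation
  have hsep : ∀ ω ω' j, P ω j ≠ P ω' j →
      1 / 3 ^ (n0 + j * k + q) ≤ dist (x ω, y ω) (x ω', y ω') := by
    intro ω ω' j hne
    have hgen : ∀ (N A B : ℕ) (s t : ℝ), CN N A → CN N B → A ≠ B → (A : ℝ) / 3 ^ N ≤ s →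
        s ≤ ((A : ℝ) + 1) / 3 ^ N → (B : ℝ) / 3 ^ N ≤ t → t ≤ ((B : ℝ) + 1) / 3 ^ N →
        1 / 3 ^ N ≤ |s - t| := by
      intro N A B s t hA hB hAB h1 h2 h3 h4
      have hN : (0 : ℝ) < 3 ^ N := by positivity
      rw [div_le_iff₀ hN] at h1 h3
      rw [le_div_iff₀ hN] at h2 h4
      rw [div_le_iff₀ hN]
      have h5 : |s - t| * 3 ^ N = |s * 3 ^ N - t * 3 ^ N| := by
        rw [← sub_mul, abs_mul, abs_of_pos hN]
      rw [h5]
      rcases hA.sep hB hAB with h | h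
      · have : (A : ℝ) + 2 ≤ B := by exact_mod_cast h
        rw [abs_sub_comm]
        exact le_trans (by linarith) (le_abs_self _)
      · have : (B : ℝ) + 2 ≤ A := by exact_mod_cast h
        exact le_trans (by linarith) (le_abs_self _)
    rw [Prod.dist_eq, Real.dist_eq, Real.dist_eq]
    by_cases h1 : (P ω j).1 = (P ω' j).1
    · have h2 : (P ω j).2 ≠ (P ω' j).2 := fun h2 => hne (Prod.ext h1 h2)
      refine le_trans ?_ (le_max_right _ _)
      exact hgen _ _ _ _ _ (hCN2 ω j) (hCN2 ω' j) h2 (hyb ω j).1 (hyb ω j).2 (hyb ω' j).1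
        (hyb ω' j).2
    · refine le_trans ?_ (le_max_left _ _)
      refine le_trans ?_ (hgen _ _ _ _ _ (hCN1 ω j) (hCN1 ω' j) h1 (hxb ω j).1 (hxb ω j).2
        (hxb ω' j).1 (hxb ω' j).2)
      apply one_div_le_one_div_of_le (by positivity)
      exact pow_le_pow_right₀ (by norm_num) (by omega)
  -- the coding
  set p : (ℕ → Fin M) → ℝ × ℝ := fun ω => (x ω, y ω) with hp
  have hrange : range p ⊆ Lim q k n0 Good := by
    rintro _ ⟨ω, rfl⟩
    exact ⟨hE ω, fun j => ⟨(P ω j).1, (P ω j).2, hgood ω j, hCN1 ω j, hCN2 ω j,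
      (hxb ω j).1, (hxb ω j).2, (hyb ω j).1, (hyb ω j).2⟩⟩
  have hρ : (0 : ℝ) < 1 / 3 ^ k := by positivity
  have h3k : (1 : ℝ) < 3 ^ k := one_lt_pow₀ (by norm_num) hk.ne'
  have hρ1 : (1 : ℝ) / 3 ^ k < 1 := by
    rw [div_lt_one (by positivity)]
    exact h3k
  have hcpos : (0 : ℝ) < 1 / 3 ^ (n0 + k + q) := by positivity
  have main := dimH_range_ge (X := ℝ × ℝ) (p := p) hM hcpos hρ hρ1 (by
    intro ω ω' j h1 h2
    have h3 : P ω (j + 1) ≠ P ω' (j + 1) := by
      have e := hpre ω ω' j h1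
      rw [Ps, Ps, ← e]
      intro h4
      have h5 := Prod.mk.injEq _ _ _ _ ▸ h4
      have h6 : c (n0 + j * k) (P ω j).1 (P ω j).2 (ω j) =
          c (n0 + j * k) (P ω j).1 (P ω j).2 (ω' j) :=
        Prod.ext (by omega) (by omega)
      exact h2 ((hc _ _ _ (hgood ω j)).1 h6)
    have h4 := hsep ω ω' (j + 1) h3
    refine le_trans (le_of_eq ?_) h4
    rw [show n0 + (j + 1) * k + q = n0 + k + q + k * j by ring, pow_add (3 : ℝ) (n0 + k + q),
      pow_mul]
    rw [one_div_pow]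
    field_simp)
  refine le_trans (le_of_eq ?_) (main.trans (dimH_mono hrange))
  congr 1
  rw [one_div, inv_inv, Real.log_pow]

/-- **Tree lemma**, for the whole set `E`. -/
theorem tree_dimH {q k M n0 a0 b0 : ℕ} {C : ℝ} (Good : ℕ → ℕ → ℕ → Prop) (hk : 0 < k)
    (hM : 2 ≤ M) (ha0 : CN n0 a0) (hb0 : CN (n0 + q) b0) (h0 : Good n0 a0 b0)
    (hstep : ∀ n a b, Good n a b → ∃ S : Finset (ℕ × ℕ), M ≤ S.card ∧ ∀ p ∈ S,
      CN k p.1 ∧ CN k p.2 ∧ Good (n + k) (3 ^ k * a + p.1) (3 ^ k * b + p.2))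
    (hC : ∀ n a b, Good n a b → |nu q n a b| ≤ C) :
    ENNReal.ofReal (Real.log M / (k * Real.log 3)) ≤ dimH E :=
  (tree_dimH_lim Good hk hM ha0 hb0 h0 hstep hC).trans (dimH_mono Lim_subset)

end H60CD
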