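import Pool.Agent.Lib.H60CD.Dim
import Pool.Agent.Lib.H60CD.GeomK

/-!
# MP_54f706, Q2: upper bound for the dimension from the flatness of the linear counts
-/

namespace H60CD

open Set MeasureTheory Real Topology Pool.Agent.Lib.H60U

/-- The points of the circle with `y > 0` in the square `(a, b)` of level `n` (points of the
product of the Cantor set with itself). -/
def Q (n a b : ℕ) : Set (ℝ × ℝ) :=
  {p | p.1 ^ 2 + p.2 ^ 2 = 1 ∧ 0 < p.2 ∧ Part n a p.1 ∧ Part n b p.2}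

lemma eq_g {x y : ℝ} (h : x ^ 2 + y ^ 2 = 1) (hy : 0 ≤ y) : y = H60CD.g x := by
  have e : 1 - x ^ 2 = y ^ 2 := by linarith
  unfold H60CD.g
  rw [e, Real.sqrt_sq hy]

lemma ediam_Q (n a b : ℕ) : Metric.ediam (Q n a b) ≤ ENNReal.ofReal (1 / 3 ^ n) := by
  refine Metric.ediam_le ?_
  rintro p ⟨-, -, h1, h2⟩ p' ⟨-, -, h1', h2'⟩
  rw [edist_dist]
  refine ENNReal.ofReal_le_ofReal ?_
  obtain ⟨l1, u1⟩ := h1.bounds
  obtain ⟨l2, u2⟩ := h2.bounds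
  obtain ⟨l1', u1'⟩ := h1'.bounds
  obtain ⟨l2', u2'⟩ := h2'.bounds
  have e : ∀ c : ℝ, (c + 1) / 3 ^ n = c / 3 ^ n + 1 / 3 ^ n := fun c => by rw [add_div]
  rw [e] at u1 u2 u1' u2'
  rw [Prod.dist_eq, Real.dist_eq, Real.dist_eq]
  refine max_le ?_ ?_ <;> rw [abs_le] <;> constructor <;> linarith

/-- A nonempty square has position between `0` and `1 +` slope. -/
lemma nu_range {X0 X1 t0 t1 : ℝ} (h0 : 0 ≤ X0) (h1 : X1 < 1) (ht0 : 0 ≤ t0) (ht1 : 0 ≤ t1)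
    (hlo : t0 ^ 2 * (1 - X0 ^ 2) ≤ X0 ^ 2) (hhi : X1 ^ 2 ≤ t1 ^ 2 * (1 - X1 ^ 2))
    {n a b : ℕ} (ha : X0 ≤ (a : ℝ) / 3 ^ n) (ha' : ((a : ℝ) + 1) / 3 ^ n ≤ X1)
    (hne : (Q n a b).Nonempty) : 0 ≤ nu 0 n a b ∧ nu 0 n a b ≤ 1 + t1 := by
  obtain ⟨p, hc, hy, hpa, hpb⟩ := hne
  obtain ⟨l1, u1⟩ := hpa.bounds
  obtain ⟨l2, u2⟩ := hpb.bounds
  have hg : p.2 = H60CD.g p.1 := eq_g hc hy.le
  obtain ⟨d1, d2⟩ := drop_real h0 h1 ht1 hlo hhi ha l1 (u1.trans ha')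
  have h3 : (0 : ℝ) < 3 ^ n := by positivity
  rw [← hg] at d1 d2
  have l2' : (b : ℝ) ≤ p.2 * 3 ^ n := by rwa [div_le_iff₀ h3] at l2
  have u2' : p.2 * 3 ^ n ≤ (b : ℝ) + 1 := by rwa [le_div_iff₀ h3] at u2
  have hd0 : 0 ≤ p.1 - (a : ℝ) / 3 ^ n := by linarith
  have hd1 : (p.1 - (a : ℝ) / 3 ^ n) * 3 ^ n ≤ 1 := by
    have : p.1 * 3 ^ n ≤ (a : ℝ) + 1 := by rwa [le_div_iff₀ h3] at u1
    have e : (a : ℝ) / 3 ^ n * 3 ^ n = a := by field_simp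
    rw [sub_mul, e]
    linarith
  have k1 : 0 ≤ (H60CD.g ((a : ℝ) / 3 ^ n) - p.2) * 3 ^ n :=
    mul_nonneg (le_trans (mul_nonneg ht0 hd0) d1) h3.le
  have k2 : (H60CD.g ((a : ℝ) / 3 ^ n) - p.2) * 3 ^ n ≤ t1 := by
    calc (H60CD.g ((a : ℝ) / 3 ^ n) - p.2) * 3 ^ n
        ≤ t1 * (p.1 - (a : ℝ) / 3 ^ n) * 3 ^ n := mul_le_mul_of_nonneg_right d2 h3.le
      _ = t1 * ((p.1 - (a : ℝ) / 3 ^ n) * 3 ^ n) := by ring
      _ ≤ t1 * 1 := mul_le_mul_of_nonneg_left hd1 ht1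
      _ = t1 := mul_one _
  unfold nu
  rw [add_zero]
  constructor <;> nlinarith

/-- Number of pairs of digit numbers near the line `h = B + t A`. -/
noncomputable def lineCount (t W : ℝ) (n : ℕ) (h : ℝ) : ℕ := by
  classical
  exact ((CF n ×ˢ CF n).filter (fun p => |h - p.2 - t * p.1| ≤ W)).card

/-- The descendants of a square. -/
lemma Q_subset (n a b K : ℕ) :
    Q n a b ⊆ ⋃ p ∈ (CF K ×ˢ CF K), Q (n + K) (3 ^ K * a + p.1) (3 ^ K * b + p.2) := by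
  rintro p ⟨hc, hy, hpa, hpb⟩
  obtain ⟨A, hA, hA'⟩ := hpa.desc K
  obtain ⟨B, hB, hB'⟩ := hpb.desc K
  refine mem_iUnion₂.mpr ⟨(A, B), ?_, hc, hy, hA', hB'⟩
  rw [Finset.mem_product]
  exact ⟨mem_CF.mpr hA, mem_CF.mpr hB⟩

/-- Covers of the squares in a window. -/
theorem cov_Q {X0 X1 t0 t1 t W N : ℝ} {K : ℕ} (h0 : 0 ≤ X0) (h1 : X1 < 1) (ht0 : 0 ≤ t0)
    (ht1 : 0 ≤ t1) (hlo : t0 ^ 2 * (1 - X0 ^ 2) ≤ X0 ^ 2)
    (hhi : X1 ^ 2 ≤ t1 ^ 2 * (1 - X1 ^ 2)) (hN : 0 ≤ N)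
    (hcount : ∀ h : ℝ, (lineCount t W K h : ℝ) ≤ N)
    (e0 : t - t0 ≤ 1 / 3 ^ K) (e1 : t1 - t ≤ 1 / 3 ^ K) (hW : t + 3 ≤ W) (j : ℕ) :
    ∀ {n a b : ℕ}, X0 ≤ (a : ℝ) / 3 ^ n → ((a : ℝ) + 1) / 3 ^ n ≤ X1 →
      Cov (Q n a b) (1 / 3 ^ (n + K * j)) (N ^ j) := by
  induction j with
  | zero =>
    intro n a b _ _
    refine ⟨[Q n a b], by simp, ?_, by simp⟩
    intro U hU
    rw [List.mem_singleton] at hU
    rw [hU, Nat.mul_zero, Nat.add_zero]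
    exact ediam_Q n a b
  | succ j ih =>
    intro n a b ha ha'
    classical
    set F := (CF K ×ˢ CF K).filter
      (fun p => |3 ^ K * nu 0 n a b - p.2 - t * p.1| ≤ W) with hF
    have hFc : (F.card : ℝ) ≤ N := by
      have := hcount (3 ^ K * nu 0 n a b)
      unfold lineCount at this
      convert this
    have h3n : (0 : ℝ) < 3 ^ n := by positivity
    have h3K : (0 : ℝ) < 3 ^ K := by positivity
    have hin : ∀ p ∈ CF K ×ˢ CF K, X0 ≤ ((3 ^ K * a + p.1 : ℕ) : ℝ) / 3 ^ (n + K) ∧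
        (((3 ^ K * a + p.1 : ℕ) : ℝ) + 1) / 3 ^ (n + K) ≤ X1 := by
      intro p hp
      rw [Finset.mem_product] at hp
      have hlt : ((p.1 : ℕ) : ℝ) + 1 ≤ 3 ^ K := by
        have := (mem_CF.mp hp.1).lt
        exact_mod_cast this
      have hp0 : (0 : ℝ) ≤ (p.1 : ℝ) := by positivity
      constructor
      · refine ha.trans ?_
        rw [pow_add, div_le_div_iff₀ h3n (by positivity)]
        push_cast
        nlinarith
      · refine le_trans ?_ ha'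
        rw [pow_add, div_le_div_iff₀ (by positivity) h3n]
        push_cast
        nlinarith
    have hsub : Q n a b ⊆ ⋃ p ∈ F, Q (n + K) (3 ^ K * a + p.1) (3 ^ K * b + p.2) := by
      intro x hx
      obtain ⟨p, hp, hxp⟩ := mem_iUnion₂.mp (Q_subset n a b K hx)
      refine mem_iUnion₂.mpr ⟨p, ?_, hxp⟩
      rw [hF, Finset.mem_filter]
      refine ⟨hp, ?_⟩
      obtain ⟨i0, i1⟩ := hin p hp
      obtain ⟨r0, r1⟩ := nu_range h0 h1 ht0 ht1 hlo hhi i0 i1 ⟨x, hxp⟩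
      rw [Finset.mem_product] at hp
      have hA := (mem_CF.mp hp.1).lt
      obtain ⟨u0, u1⟩ := nu_desc (q := 0) (b := b) (B := p.2) h0 h1 ht1 hlo hhi ha ha' hA
      rw [pow_zero, one_mul] at u0 u1
      have hA' : (p.1 : ℝ) ≤ 3 ^ K := by exact_mod_cast hA.le
      have hp0 : (0 : ℝ) ≤ (p.1 : ℝ) := by positivity
      have m0 : (p.1 : ℝ) * (t - t0) ≤ 1 := by
        by_cases hs : t - t0 ≤ 0
        · nlinarith
        · push Not at hs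
          calc (p.1 : ℝ) * (t - t0) ≤ 3 ^ K * (1 / 3 ^ K) :=
                mul_le_mul hA' e0 hs.le h3K.le
            _ = 1 := by field_simp
      have m1 : (p.1 : ℝ) * (t1 - t) ≤ 1 := by
        by_cases hs : t1 - t ≤ 0
        · nlinarith
        · push Not at hs
          calc (p.1 : ℝ) * (t1 - t) ≤ 3 ^ K * (1 / 3 ^ K) :=
                mul_le_mul hA' e1 hs.le h3K.le
            _ = 1 := by field_simp
      have hK1 : (1 : ℝ) / 3 ^ K ≤ 1 := by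
        rw [div_le_one h3K]
        exact one_le_pow₀ (by norm_num)
      rw [abs_le]
      constructor <;> nlinarith
    have e : n + K * (j + 1) = (n + K) + K * j := by ring
    rw [e, pow_succ, mul_comm (N ^ j) N]
    have hNj : 0 ≤ N ^ j := by positivity
    refine (cov_biUnion F _ hsub (fun p hp => ?_)).mono subset_rfl
      (mul_le_mul_of_nonneg_right hFc hNj)
    have hp' : p ∈ CF K ×ˢ CF K := Finset.filter_subset _ _ hp
    exact ih (hin p hp').1 (hin p hp').2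

end H60CD
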