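import Pool.Agent.Lib.H60CD.Up

/-!
# MP_54f706, Q2: upper bound for the dimension from the flatness of the linear counts, second part
-/

namespace H60CD

open Set MeasureTheory Real Topology Pool.Agent.Lib.H60U

theorem local_upper {p0 : ℝ × ℝ} (hc : p0.1 ^ 2 + p0.2 ^ 2 = 1) (hx : 0 < p0.1) (hy : 0 < p0.2)
    {K : ℕ} (hK : 0 < K) {N : ℝ} (hN : 1 ≤ N)
    (hcount : ∀ h : ℝ, (lineCount (p0.1 / p0.2) (p0.1 / p0.2 + 3) K h : ℝ) ≤ N) :
    ∃ V ∈ 𝓝 p0, dimH (E ∩ V) ≤ ENNReal.ofReal (Real.log N / (K * Real.log 3)) := by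
  classical
  have hx1 : p0.1 < 1 := by nlinarith
  have h3K : (0 : ℝ) < 3 ^ K := by positivity
  obtain ⟨X0, X1, t0, t1, hX0, hX0', hX1', hX1, ht0, ht1, hlo, hhi, e0, e1⟩ :=
    exists_window hx hx1 (δ := 1 / 3 ^ K) (by positivity)
  rw [← eq_g hc hy.le] at e0 e1
  -- the radius and the level
  obtain ⟨r, hr, hr0, hr1, hr2⟩ : ∃ r : ℝ, 0 < r ∧ X0 + 2 * r ≤ p0.1 ∧ p0.1 + 2 * r ≤ X1 ∧
      r ≤ p0.2 / 2 := by
    refine ⟨min ((p0.1 - X0) / 2) (min ((X1 - p0.1) / 2) (p0.2 / 2)), ?_, ?_, ?_, ?_⟩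
    · exact lt_min (by linarith) (lt_min (by linarith) (by linarith))
    · have := min_le_left ((p0.1 - X0) / 2) (min ((X1 - p0.1) / 2) (p0.2 / 2))
      linarith
    · have := (min_le_right ((p0.1 - X0) / 2) (min ((X1 - p0.1) / 2) (p0.2 / 2))).trans
        (min_le_left _ _)
      linarith
    · exact (min_le_right ((p0.1 - X0) / 2) (min ((X1 - p0.1) / 2) (p0.2 / 2))).trans
        (min_le_right _ _)
  obtain ⟨n, hn⟩ := exists_pow_lt_of_lt_one hr (by norm_num : (1 / 3 : ℝ) < 1)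
  have hn' : 1 / 3 ^ n < r := by rwa [one_div, inv_pow, ← one_div] at hn
  have h3n : (0 : ℝ) < 3 ^ n := by positivity
  refine ⟨Metric.ball p0 r, Metric.ball_mem_nhds _ hr, ?_⟩
  set F := (CF n ×ˢ CF n).filter
    (fun p => X0 ≤ (p.1 : ℝ) / 3 ^ n ∧ ((p.1 : ℝ) + 1) / 3 ^ n ≤ X1) with hF
  have hsub : E ∩ Metric.ball p0 r ⊆ ⋃ p ∈ F, Q n p.1 p.2 := by
    rintro x ⟨⟨hxc, hx1, hx2⟩, hxb⟩
    obtain ⟨a, ha, hpa⟩ := exists_part hx1 n
    obtain ⟨b, hb, hpb⟩ := exists_part hx2 n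
    rw [Metric.mem_ball, Prod.dist_eq, max_lt_iff, Real.dist_eq, Real.dist_eq, abs_lt, abs_lt] at hxb
    obtain ⟨⟨b1, b2⟩, b3, b4⟩ := hxb
    obtain ⟨l1, u1⟩ := hpa.bounds
    refine mem_iUnion₂.mpr ⟨(a, b), ?_, hxc, by linarith, hpa, hpb⟩
    rw [hF, Finset.mem_filter, Finset.mem_product]
    refine ⟨⟨mem_CF.mpr ha, mem_CF.mpr hb⟩, ?_, ?_⟩
    · have : ((a : ℝ) + 1) / 3 ^ n = (a : ℝ) / 3 ^ n + 1 / 3 ^ n := by rw [add_div]
      simp only
      linarith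
    · have : ((a : ℝ) + 1) / 3 ^ n = (a : ℝ) / 3 ^ n + 1 / 3 ^ n := by rw [add_div]
      simp only
      linarith
  refine dimH_le_of_cov_gen (s := 1 / 3 ^ n) (N := F.card) (L := N) hK (by positivity) hN
    fun j => ?_
  have hNj : 0 ≤ N ^ j := by positivity
  refine cov_biUnion F _ hsub fun p hp => ?_
  rw [hF, Finset.mem_filter] at hp
  have := cov_Q (t := p0.1 / p0.2) (b := p.2) hX0.le hX1 ht0.le ht1.le hlo hhi (by linarith)
    hcount (by linarith) (by linarith) le_rfl j hp.2.1 hp.2.2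
  rwa [pow_add, ← div_div] at this

/-- The flatness of the linear counts for the slope `t`. -/
def Flat (t : ℝ) : Prop := ∀ W ε : ℝ, 0 < ε → ∃ c : ℝ, ∀ n : ℕ, ∀ h : ℝ,
  (lineCount t W n h : ℝ) ≤ c * (4 / 3) ^ n * (3 : ℝ) ^ (ε * n)

lemma flat_local {p0 : ℝ × ℝ} (hc : p0.1 ^ 2 + p0.2 ^ 2 = 1) (hx : 0 < p0.1) (hy : 0 < p0.2)
    (hflat : Flat (p0.1 / p0.2)) {ε : ℝ} (hε : 0 < ε) :
    ∃ V ∈ 𝓝 p0, dimH (E ∩ V) ≤
      ENNReal.ofReal (2 * Real.log 2 / Real.log 3 - 1 + ε) := by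
  obtain ⟨c, hcc⟩ := hflat (p0.1 / p0.2 + 3) (ε / 2) (by linarith)
  have hl3 : 0 < Real.log 3 := Real.log_pos (by norm_num)
  have hl2 : 0 < Real.log 2 := Real.log_pos (by norm_num)
  -- choose `K` with `c ≤ 3 ^ (ε K / 2)`
  obtain ⟨K, hK⟩ : ∃ K : ℕ, 0 < K ∧ c ≤ (3 : ℝ) ^ (ε / 2 * K) := by
    have h1 : 1 < (3 : ℝ) ^ (ε / 2) := Real.one_lt_rpow (by norm_num) (by linarith)
    obtain ⟨K, hK⟩ := pow_unbounded_of_one_lt c h1
    refine ⟨K + 1, Nat.succ_pos _, ?_⟩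
    have h2 : ((3 : ℝ) ^ (ε / 2)) ^ K ≤ ((3 : ℝ) ^ (ε / 2)) ^ (K + 1) :=
      pow_le_pow_right₀ h1.le (Nat.le_succ _)
    rw [Real.rpow_mul_natCast (by norm_num)]
    exact hK.le.trans h2
  set L : ℝ := (4 / 3) ^ K * (3 : ℝ) ^ (ε * K) with hL
  have hKr : (0 : ℝ) < K := by exact_mod_cast hK.1
  have hL1 : 1 ≤ L := by
    have h1 : (1 : ℝ) ≤ (4 / 3) ^ K := one_le_pow₀ (by norm_num)
    have h2 : (1 : ℝ) ≤ (3 : ℝ) ^ (ε * K) := Real.one_le_rpow (by norm_num) (by positivity)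
    rw [hL]
    nlinarith
  have hcount : ∀ h : ℝ, (lineCount (p0.1 / p0.2) (p0.1 / p0.2 + 3) K h : ℝ) ≤ L := by
    intro h
    refine (hcc K h).trans ?_
    have h1 : (0 : ℝ) < (4 / 3) ^ K := by positivity
    have h2 : (0 : ℝ) < (3 : ℝ) ^ (ε / 2 * K) := by positivity
    have e : (3 : ℝ) ^ (ε * K) = (3 : ℝ) ^ (ε / 2 * K) * (3 : ℝ) ^ (ε / 2 * K) := by
      rw [← Real.rpow_add (by norm_num)]; ring_nf
    rw [hL, e]
    calc c * (4 / 3) ^ K * (3 : ℝ) ^ (ε / 2 * K)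
        ≤ (3 : ℝ) ^ (ε / 2 * K) * (4 / 3) ^ K * (3 : ℝ) ^ (ε / 2 * K) := by
          refine mul_le_mul_of_nonneg_right (mul_le_mul_of_nonneg_right hK.2 h1.le) h2.le
      _ = _ := by ring
  obtain ⟨V, hV, hd⟩ := local_upper hc hx hy hK.1 hL1 hcount
  refine ⟨V, hV, hd.trans (ENNReal.ofReal_le_ofReal (le_of_eq ?_))⟩
  have e1 : Real.log L = K * (2 * Real.log 2 - Real.log 3 + ε * Real.log 3) := by
    rw [hL, Real.log_mul (by positivity) (by positivity), Real.log_pow,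
      Real.log_rpow (by norm_num), Real.log_div (by norm_num) (by norm_num),
      show (4 : ℝ) = 2 ^ 2 by norm_num, Real.log_pow]
    push_cast
    ring
  rw [e1]
  field_simp

/-- **Upper bound.** -/
theorem dimH_E_le (hflat : ∀ t : ℝ, 0 < t → Irrational t → Flat t) :
    dimH E ≤ ENNReal.ofReal (2 * Real.log 2 / Real.log 3 - 1) := by
  -- the points with rational slope or on the axes are countably many
  set E1 : Set (ℝ × ℝ) := {p ∈ E | 0 < p.1 ∧ 0 < p.2 ∧ Irrational (p.1 / p.2)} with hE1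
  set E2 : Set (ℝ × ℝ) := {((1 : ℝ), (0 : ℝ)), ((0 : ℝ), (1 : ℝ))} ∪
    ⋃ r : ℚ, {((r : ℝ) / Real.sqrt (1 + (r : ℝ) ^ 2), 1 / Real.sqrt (1 + (r : ℝ) ^ 2))} with hE2
  have hcover : E ⊆ E1 ∪ E2 := by
    rintro ⟨x, y⟩ ⟨hc, hx, hy⟩
    simp only at hc hx hy
    have hx0 : 0 ≤ x := (cantorSet_subset_unitInterval hx).1
    have hy0 : 0 ≤ y := (cantorSet_subset_unitInterval hy).1
    rcases hx0.eq_or_lt with h | hx0
    · right; left; right
      have : y = 1 := by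
        have : y ^ 2 = 1 := by rw [← h] at hc; linarith
        nlinarith
      rw [Set.mem_singleton_iff, ← h, this]
    rcases hy0.eq_or_lt with h | hy0
    · right; left; left
      have : x = 1 := by
        have : x ^ 2 = 1 := by rw [← h] at hc; linarith
        nlinarith
      rw [← h, this]
    by_cases hir : Irrational (x / y)
    · exact Or.inl ⟨⟨hc, hx, hy⟩, hx0, hy0, hir⟩
    · right; right
      rw [Irrational, not_not] at hir
      obtain ⟨r, hr⟩ := hir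
      refine mem_iUnion.mpr ⟨r, ?_⟩
      rw [Set.mem_singleton_iff, hr]
      have e : 1 + (x / y) ^ 2 = (1 / y) ^ 2 := by
        field_simp
        linarith
      rw [e, Real.sqrt_sq (by positivity)]
      ext
      · simp only; field_simp
      · simp only; field_simp
  have hE2c : E2.Countable := by
    refine Set.Countable.union (by simp) ?_
    exact Set.countable_iUnion fun r => Set.countable_singleton _
  have h1 : dimH E1 ≤ ENNReal.ofReal (2 * Real.log 2 / Real.log 3 - 1) := by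
    by_contra hcon
    push Not at hcon
    obtain ⟨ε, hε, hlt⟩ : ∃ ε : ℝ, 0 < ε ∧
        ENNReal.ofReal (2 * Real.log 2 / Real.log 3 - 1 + ε) < dimH E1 := by
      have hs : 0 ≤ 2 * Real.log 2 / Real.log 3 - 1 := by
        have hl3 : 0 < Real.log 3 := Real.log_pos (by norm_num)
        have : Real.log 3 ≤ 2 * Real.log 2 := by
          have : Real.log 3 ≤ Real.log (2 ^ 2) := Real.log_le_log (by norm_num) (by norm_num)
          rwa [Real.log_pow] at this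
        rw [sub_nonneg, le_div_iff₀ hl3]
        linarith
      obtain ⟨c, hc1, hc2⟩ := exists_between hcon
      have hctop : c ≠ ⊤ := (hc2.trans_le le_top).ne
      refine ⟨c.toReal - (2 * Real.log 2 / Real.log 3 - 1), ?_, ?_⟩
      · have := (ENNReal.ofReal_lt_iff_lt_toReal hs hctop).mp hc1
        linarith
      · rw [add_sub_cancel, ENNReal.ofReal_toReal hctop]
        exact hc2
    obtain ⟨p, hp, hpn⟩ := exists_mem_nhdsWithin_lt_dimH_of_lt_dimH hlt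
    obtain ⟨⟨hc, hx, hy⟩, hx0, hy0, hir⟩ := hp
    obtain ⟨V, hV, hd⟩ := flat_local hc hx0 hy0 (hflat _ (div_pos hx0 hy0) hir) hε
    have := hpn (E1 ∩ V) (inter_mem_nhdsWithin _ hV)
    have h2 : dimH (E1 ∩ V) ≤ dimH (E ∩ V) := by
      refine dimH_mono ?_
      intro x hx
      exact ⟨hx.1.1, hx.2⟩
    exact absurd (this.trans_le (h2.trans hd)) (lt_irrefl _)
  calc dimH E ≤ dimH (E1 ∪ E2) := dimH_mono hcover
    _ = max (dimH E1) (dimH E2) := dimH_union _ _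
    _ ≤ ENNReal.ofReal (2 * Real.log 2 / Real.log 3 - 1) := by
        rw [hE2c.dimH_zero]
        exact max_le h1 bot_le

end H60CD
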